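import Mathlib

set_option autoImplicit false

namespace Pool.Agent.MP_a56558_gt

open Set Filter Topology

/-- Subcontinuum: a closed connected (hence nonempty) set. -/
def Ctm {α : Type*} [TopologicalSpace α] (K : Set α) : Prop := IsClosed K ∧ IsConnected K

/-- Hereditarily indecomposable: two subcontinua that meet are nested. -/
def HI (α : Type*) [TopologicalSpace α] : Prop :=
  ∀ K L : Set α, IsClosed K → IsConnected K → IsClosed L → IsConnected L →
    (K ∩ L).Nonempty → K ⊆ L ∨ L ⊆ K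

/-- Span zero. -/
def SpanZero (α : Type*) [TopologicalSpace α] : Prop :=
  ∀ Z : Set (α × α), IsClosed Z → IsConnected Z → Prod.fst '' Z = Prod.snd '' Z →
    ∃ x : α, (x, x) ∈ Z

section Walks

variable {X : Type*} [MetricSpace X]

/-- A walk with steps `< δ` in the set `B`. -/
def IsWalk (δ : ℝ) (B : Set X) (l : List X) : Prop :=
  l ≠ [] ∧ l.IsChain (fun a b => dist a b < δ) ∧ ∀ a ∈ l, a ∈ B

/-- The points `(x,s)` such that at some time slot `i` with `i ≤ s ≤ i+1` the point `x` is at distance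
at least `e` from the walker `l i`. -/
def Far (e : ℝ) (l : List X) : Set (X × ℝ) :=
  {p | ∃ (i : ℕ) (y : X), l[i]? = some y ∧ (i : ℝ) ≤ p.2 ∧ p.2 ≤ (i : ℝ) + 1 ∧ e ≤ dist p.1 y}

/-- The same with distance at most `e`. -/
def Near (e : ℝ) (l : List X) : Set (X × ℝ) :=
  {p | ∃ (i : ℕ) (y : X), l[i]? = some y ∧ (i : ℝ) ≤ p.2 ∧ p.2 ≤ (i : ℝ) + 1 ∧ dist p.1 y ≤ e}

/-- `C` is a continuum in `A` meeting the levels `s` and `t`. -/
def Crosses (C A : Set (X × ℝ)) (s t : ℝ) : Prop :=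
  IsClosed C ∧ IsConnected C ∧ C ⊆ A ∧ (∀ p ∈ C, s ≤ p.2 ∧ p.2 ≤ t) ∧
    (∃ p ∈ C, p.2 = s) ∧ (∃ p ∈ C, p.2 = t)

/-- An evader of the walk `l` inside `B`. -/
def Evader (e : ℝ) (B : Set X) (l : List X) (C : Set (X × ℝ)) : Prop :=
  Crosses C (Far e l) (1 / 3) ((l.length : ℝ) - 1 / 3) ∧ ∀ p ∈ C, p.1 ∈ B

/-- Every walk in `B` can be evaded inside `B`. -/
def Surv (e δ : ℝ) (B : Set X) : Prop :=
  ∀ l : List X, IsWalk δ B l → ∃ C, Evader e B l C

end Walks

/-- Limit of a family of sets along an ultrafilter. -/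
def ulim {ι α : Type*} [PseudoMetricSpace α] (U : Ultrafilter ι) (A : ι → Set α) : Set α :=
  {p | ∀ η : ℝ, 0 < η → ∀ᶠ i in (U : Filter ι), ∃ a ∈ A i, dist p a < η}

/-- `A` is `η`-chain connected. -/
def ChainConn {α : Type*} [PseudoMetricSpace α] (η : ℝ) (A : Set α) : Prop :=
  ∀ a ∈ A, ∀ b ∈ A, Relation.ReflTransGen (fun x y => x ∈ A ∧ y ∈ A ∧ dist x y < η) a b

end Pool.Agent.MP_a56558_gt
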