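import Pool.Agent.MP_a56558_gt.Top

set_option autoImplicit false

namespace Pool.Agent.MP_a56558_gt

open Set Filter Topology

section Cinf

variable {X Y Ω : Type*} [MetricSpace X] [CompactSpace X] [MetricSpace Y] [CompactSpace Y]
  [MetricSpace Ω] [CompactSpace Ω]

/-- the component of `A ∩ f⁻¹ (p K)` at `a` -/
def comp (f : X → Y) (p : Ω → Y) (A : Set X) (K : Set Ω) (a : X) : Set X :=
  connectedComponentIn (A ∩ f ⁻¹' (p '' K)) a

/-- closure of the union of the components along a chain -/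
def cinf (f : X → Y) (p : Ω → Y) (A : Set X) (𝒞 : Set (Set Ω)) (a : X) : Set X :=
  closure (⋃ K ∈ 𝒞, comp f p A K a)

theorem comp_props (hY : HI Y) {f : X → Y} (hf : Continuous f) {p : Ω → Y} (hp : Continuous p)
    {A : Set X} (hA : IsClosed A) (hAc : IsConnected A) {Z K : Set Ω} (hfA : f '' A = p '' Z)
    (hK : IsClosed K) (hKc : IsConnected K) (hKZ : K ⊆ Z) {z : Ω} (hz : z ∈ K) {a : X}
    (ha : a ∈ A) (haz : f a = p z) :
    IsClosed (comp f p A K a) ∧ IsConnected (comp f p A K a) ∧ comp f p A K a ⊆ A ∧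
      a ∈ comp f p A K a ∧ f '' comp f p A K a = p '' K := by
  have hmem : a ∈ A ∩ f ⁻¹' (p '' K) := ⟨ha, by rw [mem_preimage, haz]; exact mem_image_of_mem p hz⟩
  have hL : IsClosed (p '' K) := (hK.isCompact.image hp).isClosed
  have hLc : IsConnected (p '' K) := hKc.image p hp.continuousOn
  have hLA : p '' K ⊆ f '' A := by rw [hfA]; exact image_mono hKZ
  obtain ⟨h1, h2⟩ := exists_lift_component hY hf hA hAc hL hLc hLA ha hmem.2
  refine ⟨h1, ?_, ?_, ?_, h2⟩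
  · exact isConnected_connectedComponentIn_iff.mpr hmem
  · exact (connectedComponentIn_subset _ _).trans inter_subset_left
  · exact mem_connectedComponentIn hmem

theorem cinf_props (hY : HI Y) {f : X → Y} (hf : Continuous f) {p : Ω → Y} (hp : Continuous p)
    {A : Set X} (hA : IsClosed A) (hAc : IsConnected A) {Z : Set Ω} (hfA : f '' A = p '' Z)
    {𝒞 : Set (Set Ω)} {z : Ω} (hne : 𝒞.Nonempty)
    (h𝒞 : ∀ K ∈ 𝒞, IsClosed K ∧ IsConnected K ∧ K ⊆ Z ∧ K ≠ Z ∧ z ∈ K)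
    (hcl : closure (⋃₀ 𝒞) = Z) {a : X} (ha : a ∈ A) (haz : f a = p z) :
    IsClosed (cinf f p A 𝒞 a) ∧ IsConnected (cinf f p A 𝒞 a) ∧ cinf f p A 𝒞 a ⊆ A ∧
      a ∈ cinf f p A 𝒞 a ∧ f '' cinf f p A 𝒞 a = p '' Z := by
  have hprop : ∀ K ∈ 𝒞, IsClosed (comp f p A K a) ∧ IsConnected (comp f p A K a) ∧
      comp f p A K a ⊆ A ∧ a ∈ comp f p A K a ∧ f '' comp f p A K a = p '' K := fun K hK =>
    comp_props hY hf hp hA hAc hfA (h𝒞 K hK).1 (h𝒞 K hK).2.1 (h𝒞 K hK).2.2.1 (h𝒞 K hK).2.2.2.2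
      ha haz
  obtain ⟨K₀, hK₀⟩ := hne
  have hmem : a ∈ ⋃ K ∈ 𝒞, comp f p A K a :=
    mem_biUnion hK₀ (hprop K₀ hK₀).2.2.2.1
  refine ⟨isClosed_closure, ?_, ?_, subset_closure hmem, ?_⟩
  · refine IsConnected.closure ⟨⟨a, hmem⟩, ?_⟩
    rw [← sUnion_image]
    refine isPreconnected_sUnion a _ ?_ ?_
    · rintro _ ⟨K, hK, rfl⟩; exact (hprop K hK).2.2.2.1
    · rintro _ ⟨K, hK, rfl⟩; exact (hprop K hK).2.1.isPreconnected
  · exact closure_minimal (iUnion₂_subset fun K hK => (hprop K hK).2.2.1) hA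
  · have e1 : f '' cinf f p A 𝒞 a = closure (f '' ⋃ K ∈ 𝒞, comp f p A K a) :=
      image_closure_of_isCompact isClosed_closure.isCompact hf.continuousOn
    have e2 : p '' Z = closure (p '' ⋃₀ 𝒞) := by
      rw [← hcl]
      exact image_closure_of_isCompact isClosed_closure.isCompact hp.continuousOn
    rw [e1, e2, image_iUnion₂, sUnion_eq_biUnion, image_iUnion₂]
    congr 1
    exact iUnion₂_congr fun K hK => (hprop K hK).2.2.2.2

end Cinf


section Compare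

theorem closure_rel {X X' : Type*} [MetricSpace X] [CompactSpace X] [MetricSpace X']
    [CompactSpace X'] {R : Set (X × X')} (hR : IsClosed R) {S : Set X} {S' : Set X'}
    (h : ∀ x' ∈ S', ∃ x ∈ S, (x, x') ∈ R) : ∀ x' ∈ closure S', ∃ x ∈ closure S, (x, x') ∈ R := by
  have hK : IsCompact (R ∩ closure S ×ˢ univ) :=
    (hR.inter (isClosed_closure.prod isClosed_univ)).isCompact
  have hcl : IsClosed (Prod.snd '' (R ∩ closure S ×ˢ univ)) := (hK.image continuous_snd).isClosed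
  have hsub : S' ⊆ Prod.snd '' (R ∩ closure S ×ˢ univ) := by
    intro x' hx'
    obtain ⟨x, hx, hxR⟩ := h x' hx'
    exact ⟨(x, x'), ⟨hxR, subset_closure hx, mem_univ _⟩, rfl⟩
  intro x' hx'
  obtain ⟨⟨x, y⟩, ⟨h1, h2, -⟩, rfl⟩ := closure_minimal hsub hcl hx'
  exact ⟨x, h2, h1⟩

variable {X X' Y Y' Ω : Type*} [MetricSpace X] [CompactSpace X] [MetricSpace X'] [CompactSpace X']
  [MetricSpace Y] [CompactSpace Y] [MetricSpace Y'] [CompactSpace Y']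
  [MetricSpace Ω] [CompactSpace Ω]

/-- good triples -/
structure Good (f : X → Y) (f' : X' → Y') (p : Ω → Y) (p' : Ω → Y')
    (Z : Set Ω) (A : Set X) (A' : Set X') : Prop where
  hZ : IsClosed Z
  hZc : IsConnected Z
  hA : IsClosed A
  hAc : IsConnected A
  hA' : IsClosed A'
  hAc' : IsConnected A'
  e : f '' A = p '' Z
  e' : f' '' A' = p' '' Z

/-- all matched pairs satisfy `π x < π' x'`. -/
def AllLt (f : X → Y) (f' : X' → Y') (p : Ω → Y) (p' : Ω → Y') (π : X → ℝ) (π' : X' → ℝ)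
    (Z : Set Ω) (A : Set X) (A' : Set X') : Prop :=
  ∀ ω ∈ Z, ∀ x ∈ A, ∀ x' ∈ A', f x = p ω → f' x' = p' ω → π x < π' x'

/-- matched pairs have different heights -/
def AllNe (f : X → Y) (f' : X' → Y') (p : Ω → Y) (p' : Ω → Y') (π : X → ℝ) (π' : X' → ℝ)
    (Z : Set Ω) (A : Set X) (A' : Set X') : Prop :=
  ∀ ω ∈ Z, ∀ x ∈ A, ∀ x' ∈ A', f x = p ω → f' x' = p' ω → π x ≠ π' x'

/-- chain data at a point -/
structure ChainAt (Z : Set Ω) (z : Ω) (𝒞 : Set (Set Ω)) : Prop where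
  ne : 𝒞.Nonempty
  mem : ∀ K ∈ 𝒞, IsClosed K ∧ IsConnected K ∧ K ⊆ Z ∧ K ≠ Z ∧ z ∈ K
  cl : closure (⋃₀ 𝒞) = Z

theorem compare (hY : HI Y) (hY' : HI Y') {f : X → Y} {f' : X' → Y'} (hf : Continuous f)
    (hf' : Continuous f') {p : Ω → Y} {p' : Ω → Y'} (hp : Continuous p) (hp' : Continuous p')
    {π : X → ℝ} {π' : X' → ℝ} (hπ : Continuous π) (hπ' : Continuous π')
    {Z : Set Ω} {A : Set X} {A' : Set X'} (hgood : Good f f' p p' Z A A')
    (hmin : ∀ K B B', Good f f' p p' K B B' → K ⊆ Z → B ⊆ A → B' ⊆ A' → K ≠ Z →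
      AllLt f f' p p' π π' K B B' ∨
        AllLt f f' p p' (fun x => - π x) (fun x => - π' x) K B B') {g : ℝ}
    (hg : ∀ ω ∈ Z, ∀ x ∈ A, ∀ x' ∈ A', f x = p ω → f' x' = p' ω → π x < π' x' → π x + g ≤ π' x')
    {z : Ω} {𝒞 : Set (Set Ω)} (hc : ChainAt Z z 𝒞) {a : X} {a' : X'} (ha : a ∈ A)
    (ha' : a' ∈ A') (haz : f a = p z) (haz' : f' a' = p' z) (hs : π a < π' a') :
    (∀ x' ∈ cinf f' p' A' 𝒞 a', ∃ x ∈ cinf f p A 𝒞 a, π x + g ≤ π' x') ∧
    (∀ x ∈ cinf f p A 𝒞 a, ∃ x' ∈ cinf f' p' A' 𝒞 a', π x + g ≤ π' x') := by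
  have key : ∀ K ∈ 𝒞, (∀ x' ∈ comp f' p' A' K a', ∃ x ∈ comp f p A K a, π x + g ≤ π' x') ∧
      (∀ x ∈ comp f p A K a, ∃ x' ∈ comp f' p' A' K a', π x + g ≤ π' x') := by
    intro K hK
    obtain ⟨k1, k2, k3, k4, k5⟩ := hc.mem K hK
    obtain ⟨c1, c2, c3, c4, c5⟩ := comp_props hY hf hp hgood.hA hgood.hAc hgood.e k1 k2 k3 k5 ha haz
    obtain ⟨d1, d2, d3, d4, d5⟩ :=
      comp_props hY' hf' hp' hgood.hA' hgood.hAc' hgood.e' k1 k2 k3 k5 ha' haz'
    have hlt : AllLt f f' p p' π π' K (comp f p A K a) (comp f' p' A' K a') := by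
      rcases hmin K _ _ ⟨k1, k2, c1, c2, d1, d2, c5, d5⟩ k3 c3 d3 k4 with h | h
      · exact h
      · exfalso
        have := h z k5 a c4 a' d4 haz haz'
        simp only at this
        linarith
    constructor
    · intro x' hx'
      have : f' x' ∈ p' '' K := by rw [← d5]; exact mem_image_of_mem _ hx'
      obtain ⟨ω, hω, hω'⟩ := this
      have : p ω ∈ f '' comp f p A K a := by rw [c5]; exact mem_image_of_mem _ hω
      obtain ⟨x, hx, hxω⟩ := this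
      exact ⟨x, hx, hg ω (k3 hω) x (c3 hx) x' (d3 hx') hxω hω'.symm
        (hlt ω hω x hx x' hx' hxω hω'.symm)⟩
    · intro x hx
      have : f x ∈ p '' K := by rw [← c5]; exact mem_image_of_mem _ hx
      obtain ⟨ω, hω, hω'⟩ := this
      have : p' ω ∈ f' '' comp f' p' A' K a' := by rw [d5]; exact mem_image_of_mem _ hω
      obtain ⟨x', hx', hxω⟩ := this
      exact ⟨x', hx', hg ω (k3 hω) x (c3 hx) x' (d3 hx') hω'.symm hxω
        (hlt ω hω x hx x' hx' hω'.symm hxω)⟩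
  constructor
  · refine closure_rel (R := {q : X × X' | π q.1 + g ≤ π' q.2})
      (isClosed_le ((hπ.comp continuous_fst).add continuous_const) (hπ'.comp continuous_snd)) ?_
    intro x' hx'
    obtain ⟨K, hK, hx'K⟩ := mem_iUnion₂.mp hx'
    obtain ⟨x, hx, hxx⟩ := (key K hK).1 x' hx'K
    exact ⟨x, mem_biUnion hK hx, hxx⟩
  · refine closure_rel (X := X') (X' := X) (R := {q : X' × X | π q.2 + g ≤ π' q.1})
      (isClosed_le ((hπ.comp continuous_snd).add continuous_const) (hπ'.comp continuous_fst)) ?_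
    intro x hx
    obtain ⟨K, hK, hxK⟩ := mem_iUnion₂.mp hx
    obtain ⟨x', hx', hxx⟩ := (key K hK).2 x hxK
    exact ⟨x', mem_biUnion hK hx', hxx⟩

/-- Step 4: if `cinf` is everything at `a`, all points of the fibre of `f a` have the same sign. -/
theorem step4 (hY : HI Y) (hY' : HI Y') {f : X → Y} {f' : X' → Y'} (hf : Continuous f)
    (hf' : Continuous f') {p : Ω → Y} {p' : Ω → Y'} (hp : Continuous p) (hp' : Continuous p')
    {π : X → ℝ} {π' : X' → ℝ} (hπ : Continuous π) (hπ' : Continuous π')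
    {Z : Set Ω} {A : Set X} {A' : Set X'} (hgood : Good f f' p p' Z A A')
    (hmin : ∀ K B B', Good f f' p p' K B B' → K ⊆ Z → B ⊆ A → B' ⊆ A' → K ≠ Z →
      AllLt f f' p p' π π' K B B' ∨
        AllLt f f' p p' (fun x => - π x) (fun x => - π' x) K B B') {g : ℝ} (hg0 : 0 < g)
    (hg : ∀ ω ∈ Z, ∀ x ∈ A, ∀ x' ∈ A', f x = p ω → f' x' = p' ω → π x < π' x' → π x + g ≤ π' x')
    (hg' : ∀ ω ∈ Z, ∀ x ∈ A, ∀ x' ∈ A', f x = p ω → f' x' = p' ω → π' x' < π x → π' x' + g ≤ π x)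
    {z : Ω} {𝒞 : Set (Set Ω)} (hc : ChainAt Z z 𝒞) {a b : X} {a' : X'} (ha : a ∈ A) (hb : b ∈ A)
    (ha' : a' ∈ A') (haz : f a = p z) (hbz : f b = p z) (haz' : f' a' = p' z)
    (hfull : cinf f p A 𝒞 a = A) (h1 : π a < π' a') (h2 : π' a' < π b) : False := by
  obtain ⟨-, L2⟩ := compare hY hY' hf hf' hp hp' hπ hπ' hgood hmin hg hc ha ha' haz haz' h1
  have hmin' : ∀ K B B', Good f f' p p' K B B' → K ⊆ Z → B ⊆ A → B' ⊆ A' → K ≠ Z →
      AllLt f f' p p' (fun x => - π x) (fun x => - π' x) K B B' ∨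
        AllLt f f' p p' (fun x => - - π x) (fun x => - - π' x) K B B' := by
    intro K B B' h3 h4 h5 h6 h7
    simp only [neg_neg]
    exact (hmin K B B' h3 h4 h5 h6 h7).symm
  obtain ⟨R1, -⟩ := compare (π := fun x => - π x) (π' := fun x => - π' x) (g := g)
    hY hY' hf hf' hp hp' hπ.neg hπ'.neg hgood hmin'
    (fun ω hω x hx x' hx' e1 e2 h => by
      have := hg' ω hω x hx x' hx' e1 e2 (by linarith)
      linarith) hc hb ha' hbz haz' (by linarith)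
  obtain ⟨-, -, -, hm, -⟩ := cinf_props hY' hf' hp' hgood.hA' hgood.hAc' hgood.e' hc.ne hc.mem
    hc.cl ha' haz'
  obtain ⟨x₀, hx₀, hmax⟩ := (isClosed_closure : IsClosed (cinf f' p' A' 𝒞 a')).isCompact.exists_isMaxOn
    ⟨a', hm⟩ hπ'.continuousOn
  obtain ⟨x, hx, hxx⟩ := R1 x₀ hx₀
  have hxA : x ∈ A := (cinf_props hY hf hp hgood.hA hgood.hAc hgood.e hc.ne hc.mem
    hc.cl hb hbz).2.2.1 hx
  rw [← hfull] at hxA
  obtain ⟨x', hx', hxx'⟩ := L2 x hxA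
  have := hmax hx'
  simp only [mem_ofPred_eq] at this
  linarith


theorem core (hY : HI Y) (hY' : HI Y') {f : X → Y} {f' : X' → Y'} (hf : Continuous f)
    (hf' : Continuous f') {p : Ω → Y} {p' : Ω → Y'} (hp : Continuous p) (hp' : Continuous p')
    {π : X → ℝ} {π' : X' → ℝ} (hπ : Continuous π) (hπ' : Continuous π')
    {Z : Set Ω} {A : Set X} {A' : Set X'} (hgood : Good f f' p p' Z A A')
    (hne : AllNe f f' p p' π π' Z A A')
    (hmin : ∀ K B B', Good f f' p p' K B B' → K ⊆ Z → B ⊆ A → B' ⊆ A' →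
      ¬ (K = Z ∧ B = A ∧ B' = A') →
      AllLt f f' p p' π π' K B B' ∨
        AllLt f f' p p' (fun x => - π x) (fun x => - π' x) K B B')
    {z₀ : Ω} (hz₀ : z₀ ∈ Z) {u₁ u₂ : X} {u' : X'} (hu₁ : u₁ ∈ A) (hu₂ : u₂ ∈ A) (hu' : u' ∈ A')
    (e₁ : f u₁ = p z₀) (e₂ : f u₂ = p z₀) (e' : f' u' = p' z₀)
    (s₁ : π u₁ < π' u') (s₂ : π' u' < π u₂) : False := by
  classical
  -- the compact set of matched triples
  set W : Set (Ω × X × X') := {t | t.1 ∈ Z ∧ t.2.1 ∈ A ∧ t.2.2 ∈ A' ∧ f t.2.1 = p t.1 ∧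
    f' t.2.2 = p' t.1} with hW
  have hWcl : IsClosed W := by
    have h1 : IsClosed {t : Ω × X × X' | t.1 ∈ Z} := hgood.hZ.preimage continuous_fst
    have h2 : IsClosed {t : Ω × X × X' | t.2.1 ∈ A} :=
      hgood.hA.preimage (continuous_fst.comp continuous_snd)
    have h3 : IsClosed {t : Ω × X × X' | t.2.2 ∈ A'} :=
      hgood.hA'.preimage (continuous_snd.comp continuous_snd)
    have h4 : IsClosed {t : Ω × X × X' | f t.2.1 = p t.1} :=
      isClosed_eq (hf.comp (continuous_fst.comp continuous_snd)) (hp.comp continuous_fst)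
    have h5 : IsClosed {t : Ω × X × X' | f' t.2.2 = p' t.1} :=
      isClosed_eq (hf'.comp (continuous_snd.comp continuous_snd)) (hp'.comp continuous_fst)
    exact h1.inter (h2.inter (h3.inter (h4.inter h5)))
  have hD : Continuous fun t : Ω × X × X' => π t.2.1 - π' t.2.2 :=
    (hπ.comp (continuous_fst.comp continuous_snd)).sub (hπ'.comp (continuous_snd.comp continuous_snd))
  obtain ⟨g, hg0, hgap⟩ : ∃ g : ℝ, 0 < g ∧ ∀ t ∈ W, g ≤ |π t.2.1 - π' t.2.2| := by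
    obtain ⟨t₀, ht₀, hmin₀⟩ := hWcl.isCompact.exists_isMinOn ⟨(z₀, u₁, u'), hz₀, hu₁, hu', e₁, e'⟩
      (hD.abs).continuousOn
    refine ⟨|π t₀.2.1 - π' t₀.2.2|, ?_, fun t ht => hmin₀ ht⟩
    obtain ⟨h1, h2, h3, h4, h5⟩ := ht₀
    exact abs_pos.mpr (sub_ne_zero.mpr (hne _ h1 _ h2 _ h3 h4 h5))
  have hg : ∀ ω ∈ Z, ∀ x ∈ A, ∀ x' ∈ A', f x = p ω → f' x' = p' ω → π x < π' x' →
      π x + g ≤ π' x' := by
    intro ω hω x hx x' hx' h1 h2 h3
    have := hgap (ω, x, x') ⟨hω, hx, hx', h1, h2⟩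
    simp only at this
    rw [abs_of_neg (by linarith)] at this
    linarith
  have hg' : ∀ ω ∈ Z, ∀ x ∈ A, ∀ x' ∈ A', f x = p ω → f' x' = p' ω → π' x' < π x →
      π' x' + g ≤ π x := by
    intro ω hω x hx x' hx' h1 h2 h3
    have := hgap (ω, x, x') ⟨hω, hx, hx', h1, h2⟩
    simp only at this
    rw [abs_of_pos (by linarith)] at this
    linarith
  have hminK : ∀ K B B', Good f f' p p' K B B' → K ⊆ Z → B ⊆ A → B' ⊆ A' → K ≠ Z →
      AllLt f f' p p' π π' K B B' ∨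
        AllLt f f' p p' (fun x => - π x) (fun x => - π' x) K B B' :=
    fun K B B' h1 h2 h3 h4 h5 => hmin K B B' h1 h2 h3 h4 (fun h => h5 h.1)
  have hminK' : ∀ K B B', Good f f' p p' K B B' → K ⊆ Z → B ⊆ A → B' ⊆ A' → K ≠ Z →
      AllLt f f' p p' (fun x => - π x) (fun x => - π' x) K B B' ∨
        AllLt f f' p p' (fun x => - - π x) (fun x => - - π' x) K B B' := by
    intro K B B' h3 h4 h5 h6 h7
    simp only [neg_neg]
    exact (hminK K B B' h3 h4 h5 h6 h7).symm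
  -- `Z` is not a singleton
  have hZne : ∀ z ∈ Z, Z ≠ {z} := by
    rintro z hz hZ
    have hall : ∀ x ∈ A, f x = p z := by
      intro x hx
      have : f x ∈ p '' Z := by rw [← hgood.e]; exact mem_image_of_mem _ hx
      rw [hZ, image_singleton] at this
      exact this
    have hz₀z : z₀ = z := by rw [hZ] at hz₀; exact hz₀
    obtain ⟨x, hx, hxe⟩ := hgood.hAc.isPreconnected.intermediate_value hu₁ hu₂ hπ.continuousOn
      ⟨s₁.le, s₂.le⟩
    exact hne z₀ hz₀ x hx u' hu' (by rw [hz₀z]; exact hall x hx) e' hxe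
  have hchain : ∀ z ∈ Z, ∃ 𝒞 : Set (Set Ω), ChainAt Z z 𝒞 := by
    intro z hz
    obtain ⟨𝒞, -, h2, h3, h4⟩ := exists_dense_chain hgood.hZ hgood.hZc hz (hZne z hz)
    exact ⟨𝒞, h2, h3, h4⟩
  -- if `cinf` is full then all signs over the fibre agree
  have st : ∀ z ∈ Z, ∀ 𝒞 : Set (Set Ω), ChainAt Z z 𝒞 → ∀ a ∈ A, ∀ b ∈ A, ∀ a' ∈ A', f a = p z →
      f b = p z → f' a' = p' z → cinf f p A 𝒞 a = A → π a < π' a' → π' a' < π b → False :=
    fun z hz 𝒞 hc a ha b hb a' ha' h1 h2 h3 h4 h5 h6 =>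
      step4 hY hY' hf hf' hp hp' hπ hπ' hgood hminK hg0 hg hg' hc ha hb ha' h1 h2 h3 h4 h5 h6
  have st' : ∀ z ∈ Z, ∀ 𝒞 : Set (Set Ω), ChainAt Z z 𝒞 → ∀ a ∈ A, ∀ b ∈ A, ∀ a' ∈ A', f a = p z →
      f b = p z → f' a' = p' z → cinf f p A 𝒞 a = A → π' a' < π a → π b < π' a' → False :=
    fun z hz 𝒞 hc a ha b hb a' ha' h1 h2 h3 h4 h5 h6 =>
      step4 (π := fun x => - π x) (π' := fun x => - π' x) hY hY' hf hf' hp hp' hπ.neg hπ'.neg hgood
        hminK' hg0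
        (fun ω hω x hx x' hx' e1 e2 h => by
          have := hg' ω hω x hx x' hx' e1 e2 (by linarith)
          linarith)
        (fun ω hω x hx x' hx' e1 e2 h => by
          have := hg ω hω x hx x' hx' e1 e2 (by linarith)
          linarith)
        hc ha hb ha' h1 h2 h3 h4 (by linarith) (by linarith)
  obtain ⟨𝒞₀, hc₀⟩ := hchain z₀ hz₀
  have hB₁ : cinf f p A 𝒞₀ u₁ ≠ A := fun h => st z₀ hz₀ 𝒞₀ hc₀ u₁ hu₁ u₂ hu₂ u' hu' e₁ e₂ e' h s₁ s₂
  have hB₂ : cinf f p A 𝒞₀ u₂ ≠ A := fun h => st' z₀ hz₀ 𝒞₀ hc₀ u₂ hu₂ u₁ hu₁ u' hu' e₂ e₁ e' h s₂ s₁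
  have hcp : ∀ z ∈ Z, ∀ 𝒞 : Set (Set Ω), ChainAt Z z 𝒞 → ∀ a ∈ A, f a = p z →
      IsClosed (cinf f p A 𝒞 a) ∧ IsConnected (cinf f p A 𝒞 a) ∧ cinf f p A 𝒞 a ⊆ A ∧
      a ∈ cinf f p A 𝒞 a ∧ f '' cinf f p A 𝒞 a = p '' Z := fun z hz 𝒞 hc a ha haz =>
    cinf_props hY hf hp hgood.hA hgood.hAc hgood.e hc.ne hc.mem hc.cl ha haz
  have hsmall : ∀ z ∈ Z, ∀ 𝒞 : Set (Set Ω), ChainAt Z z 𝒞 → ∀ a ∈ A, f a = p z →
      cinf f p A 𝒞 a ≠ A → AllLt f f' p p' π π' Z (cinf f p A 𝒞 a) A' ∨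
        AllLt f f' p p' (fun x => - π x) (fun x => - π' x) Z (cinf f p A 𝒞 a) A' := by
    intro z hz 𝒞 hc a ha haz hne'
    obtain ⟨c1, c2, c3, c4, c5⟩ := hcp z hz 𝒞 hc a ha haz
    exact hmin Z _ A' ⟨hgood.hZ, hgood.hZc, c1, c2, hgood.hA', hgood.hAc', c5, hgood.e'⟩
      subset_rfl c3 subset_rfl (fun h => hne' h.2.1)
  have hB₁lt : AllLt f f' p p' π π' Z (cinf f p A 𝒞₀ u₁) A' := by
    rcases hsmall z₀ hz₀ 𝒞₀ hc₀ u₁ hu₁ e₁ hB₁ with h | h
    · exact h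
    · exfalso
      have := h z₀ hz₀ u₁ (hcp z₀ hz₀ 𝒞₀ hc₀ u₁ hu₁ e₁).2.2.2.1 u' hu' e₁ e'
      simp only at this
      linarith
  have hB₂gt : AllLt f f' p p' (fun x => - π x) (fun x => - π' x) Z (cinf f p A 𝒞₀ u₂) A' := by
    rcases hsmall z₀ hz₀ 𝒞₀ hc₀ u₂ hu₂ e₂ hB₂ with h | h
    · exfalso
      have := h z₀ hz₀ u₂ (hcp z₀ hz₀ 𝒞₀ hc₀ u₂ hu₂ e₂).2.2.2.1 u' hu' e₂ e'
      linarith
    · exact h
  -- every point of `A` has partners of one sign only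
  have hone : ∀ a ∈ A, (∀ ω ∈ Z, ∀ a' ∈ A', f a = p ω → f' a' = p' ω → π a < π' a') ∨
      (∀ ω ∈ Z, ∀ a' ∈ A', f a = p ω → f' a' = p' ω → π' a' < π a) := by
    intro a ha
    have : f a ∈ p '' Z := by rw [← hgood.e]; exact mem_image_of_mem _ ha
    obtain ⟨ω, hω, hωa⟩ := this
    have : p' ω ∈ f' '' A' := by rw [hgood.e']; exact mem_image_of_mem _ hω
    obtain ⟨a', ha', ha'ω⟩ := this
    obtain ⟨𝒞, hc⟩ := hchain ω hω
    have hfull : cinf f p A 𝒞 a ≠ A := by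
      intro hfull
      rcases lt_or_gt_of_ne (hne ω hω a ha a' ha' hωa.symm ha'ω) with h | h
      · have : p ω ∈ f '' cinf f p A 𝒞₀ u₂ := by
          rw [(hcp z₀ hz₀ 𝒞₀ hc₀ u₂ hu₂ e₂).2.2.2.2]; exact mem_image_of_mem _ hω
        obtain ⟨b, hb, hbω⟩ := this
        have hb' := hB₂gt ω hω b hb a' ha' hbω ha'ω
        simp only at hb'
        exact st ω hω 𝒞 hc a ha b ((hcp z₀ hz₀ 𝒞₀ hc₀ u₂ hu₂ e₂).2.2.1 hb) a' ha' hωa.symm hbω
          ha'ω hfull h (by linarith)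
      · have : p ω ∈ f '' cinf f p A 𝒞₀ u₁ := by
          rw [(hcp z₀ hz₀ 𝒞₀ hc₀ u₁ hu₁ e₁).2.2.2.2]; exact mem_image_of_mem _ hω
        obtain ⟨b, hb, hbω⟩ := this
        have hb' := hB₁lt ω hω b hb a' ha' hbω ha'ω
        exact st' ω hω 𝒞 hc a ha b ((hcp z₀ hz₀ 𝒞₀ hc₀ u₁ hu₁ e₁).2.2.1 hb) a' ha' hωa.symm hbω
          ha'ω hfull h hb'
    have hamem := (hcp ω hω 𝒞 hc a ha hωa.symm).2.2.2.1
    rcases hsmall ω hω 𝒞 hc a ha hωa.symm hfull with h | h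
    · left
      intro ω' hω' a'' ha'' h1 h2
      exact h ω' hω' a hamem a'' ha'' h1 h2
    · right
      intro ω' hω' a'' ha'' h1 h2
      have := h ω' hω' a hamem a'' ha'' h1 h2
      simp only at this
      linarith
  -- the two closed pieces of `A`
  have hcl1 : IsClosed ((fun t : Ω × X × X' => t.2.1) '' (W ∩ {t | π t.2.1 ≤ π' t.2.2})) :=
    ((hWcl.inter (isClosed_le (hπ.comp (continuous_fst.comp continuous_snd))
      (hπ'.comp (continuous_snd.comp continuous_snd)))).isCompact.image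
      (continuous_fst.comp continuous_snd)).isClosed
  have hcl2 : IsClosed ((fun t : Ω × X × X' => t.2.1) '' (W ∩ {t | π' t.2.2 ≤ π t.2.1})) :=
    ((hWcl.inter (isClosed_le (hπ'.comp (continuous_snd.comp continuous_snd))
      (hπ.comp (continuous_fst.comp continuous_snd)))).isCompact.image
      (continuous_fst.comp continuous_snd)).isClosed
  obtain ⟨a, haA, ⟨⟨ω₁, a₁, a₁'⟩, ⟨⟨k1, k2, k3, k4, k5⟩, k6⟩, k7⟩,
      ⟨⟨ω₂, a₂, a₂'⟩, ⟨⟨l1, l2, l3, l4, l5⟩, l6⟩, l7⟩⟩ :=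
    isPreconnected_closed_iff.mp hgood.hAc.isPreconnected _ _ hcl1 hcl2 (by
      intro a ha
      have : f a ∈ p '' Z := by rw [← hgood.e]; exact mem_image_of_mem _ ha
      obtain ⟨ω, hω, hωa⟩ := this
      have : p' ω ∈ f' '' A' := by rw [hgood.e']; exact mem_image_of_mem _ hω
      obtain ⟨a', ha', ha'ω⟩ := this
      rcases le_total (π a) (π' a') with h | h
      · exact Or.inl ⟨(ω, a, a'), ⟨⟨hω, ha, ha', hωa.symm, ha'ω⟩, h⟩, rfl⟩
      · exact Or.inr ⟨(ω, a, a'), ⟨⟨hω, ha, ha', hωa.symm, ha'ω⟩, h⟩, rfl⟩)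
      ⟨u₁, hu₁, (z₀, u₁, u'), ⟨⟨hz₀, hu₁, hu', e₁, e'⟩, s₁.le⟩, rfl⟩
      ⟨u₂, hu₂, (z₀, u₂, u'), ⟨⟨hz₀, hu₂, hu', e₂, e'⟩, s₂.le⟩, rfl⟩
  simp only at k1 k2 k3 k4 k5 k7 l1 l2 l3 l4 l5 l7
  simp only [mem_ofPred_eq] at k6 l6
  subst k7
  subst l7
  rcases hone a₂ haA with h | h
  · have := h ω₂ l1 a₂' l3 l4 l5
    linarith
  · have := h ω₁ k1 a₁' k3 k4 k5
    linarith


theorem inter_chain_nonempty {T κ : Type*} [TopologicalSpace κ] [CompactSpace κ] [PartialOrder T]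
    {c : Set T} (hc : IsChain (· ≤ ·) c) (hne : c.Nonempty) (F : T → Set κ)
    (hmono : ∀ s ∈ c, ∀ t ∈ c, s ≤ t → F s ⊆ F t) (hcl : ∀ t ∈ c, IsClosed (F t))
    (hn : ∀ t ∈ c, (F t).Nonempty) : ∃ k, ∀ t ∈ c, k ∈ F t := by
  have : Nonempty c := hne.to_subtype
  obtain ⟨k, hk⟩ := IsCompact.nonempty_iInter_of_directed_nonempty_isCompact_isClosed
    (fun t : c => F t.1) (by
      intro s t
      rcases hc.total s.2 t.2 with h | h
      · exact ⟨s, subset_rfl, hmono _ s.2 _ t.2 h⟩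
      · exact ⟨t, hmono _ t.2 _ s.2 h, subset_rfl⟩)
    (fun t => hn t.1 t.2) (fun t => (hcl t.1 t.2).isCompact) (fun t => hcl t.1 t.2)
  exact ⟨k, fun t ht => mem_iInter.mp hk ⟨t, ht⟩⟩

theorem chain_image {T κ : Type*} [PartialOrder T] {c : Set T} (hc : IsChain (· ≤ ·) c)
    (F : T → Set κ) (h : ∀ a b, a ≤ b → F a ⊆ F b) : IsChain (· ⊆ ·) (F '' c) := by
  rintro _ ⟨a, ha, rfl⟩ _ ⟨b, hb, rfl⟩ -
  rcases hc.total ha hb with h1 | h1
  · exact Or.inl (h a b h1)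
  · exact Or.inr (h b a h1)

theorem sign_const_abs (hY : HI Y) (hY' : HI Y') {f : X → Y} {f' : X' → Y'} (hf : Continuous f)
    (hf' : Continuous f') {p : Ω → Y} {p' : Ω → Y'} (hp : Continuous p) (hp' : Continuous p')
    {π : X → ℝ} {π' : X' → ℝ} (hπ : Continuous π) (hπ' : Continuous π')
    {Z : Set Ω} {A : Set X} {A' : Set X'} (hgood : Good f f' p p' Z A A')
    (hne : AllNe f f' p p' π π' Z A A') :
    AllLt f f' p p' π π' Z A A' ∨ AllLt f f' p p' (fun x => - π x) (fun x => - π' x) Z A A' := by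
  classical
  by_contra hcon
  -- failing triples
  set 𝓕 : Set (Set Ω × Set X × Set X') := {t | Good f f' p p' t.1 t.2.1 t.2.2 ∧
    AllNe f f' p p' π π' t.1 t.2.1 t.2.2 ∧
    ¬ (AllLt f f' p p' π π' t.1 t.2.1 t.2.2 ∨
      AllLt f f' p p' (fun x => - π x) (fun x => - π' x) t.1 t.2.1 t.2.2)} with h𝓕
  have hex1 : ∀ t ∈ 𝓕, ∃ ω ∈ t.1, ∃ x ∈ t.2.1, ∃ x' ∈ t.2.2, f x = p ω ∧ f' x' = p' ω ∧
      π' x' ≤ π x := by
    intro t ht
    by_contra h
    push Not at h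
    exact ht.2.2 (Or.inl fun ω hω x hx x' hx' h1 h2 => h ω hω x hx x' hx' h1 h2)
  have hex2 : ∀ t ∈ 𝓕, ∃ ω ∈ t.1, ∃ x ∈ t.2.1, ∃ x' ∈ t.2.2, f x = p ω ∧ f' x' = p' ω ∧
      π x ≤ π' x' := by
    intro t ht
    by_contra h
    push Not at h
    exact ht.2.2 (Or.inr fun ω hω x hx x' hx' h1 h2 => by
      have := h ω hω x hx x' hx' h1 h2
      simp only
      linarith)
  obtain ⟨m, -, hm⟩ := @zorn_le_nonempty₀ (Set Ω × Set X × Set X')ᵒᵈ _ 𝓕 (by
    intro c hc𝓕 hc y hy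
    have hc' : IsChain (α := Set Ω × Set X × Set X') (· ≤ ·) c := hc.symm
    have hcne : Set.Nonempty c := ⟨y, hy⟩
    set Z₀ : Set Ω := ⋂₀ (Prod.fst '' c) with hZ₀
    set A₀ : Set X := ⋂₀ ((fun t : Set Ω × Set X × Set X' => t.2.1) '' c) with hA₀
    set A₀' : Set X' := ⋂₀ ((fun t : Set Ω × Set X × Set X' => t.2.2) '' c) with hA₀'
    have hZle : ∀ t ∈ c, Z₀ ⊆ t.1 := fun t ht => sInter_subset_of_mem ⟨t, ht, rfl⟩
    have hAle : ∀ t ∈ c, A₀ ⊆ t.2.1 := fun t ht => sInter_subset_of_mem ⟨t, ht, rfl⟩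
    have hA'le : ∀ t ∈ c, A₀' ⊆ t.2.2 := fun t ht => sInter_subset_of_mem ⟨t, ht, rfl⟩
    have hZc : IsClosed Z₀ ∧ IsConnected Z₀ := by
      refine isConnected_sInter_chain (hcne.image _) ?_ ?_
      · exact chain_image hc' _ (fun a b hab => hab.1)
      · rintro _ ⟨t, ht, rfl⟩; exact ⟨(hc𝓕 ht).1.hZ, (hc𝓕 ht).1.hZc⟩
    have hAc : IsClosed A₀ ∧ IsConnected A₀ := by
      refine isConnected_sInter_chain (hcne.image _) ?_ ?_
      · exact chain_image hc' _ (fun a b hab => hab.2.1)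
      · rintro _ ⟨t, ht, rfl⟩; exact ⟨(hc𝓕 ht).1.hA, (hc𝓕 ht).1.hAc⟩
    have hA'c : IsClosed A₀' ∧ IsConnected A₀' := by
      refine isConnected_sInter_chain (hcne.image _) ?_ ?_
      · exact chain_image hc' _ (fun a b hab => hab.2.2)
      · rintro _ ⟨t, ht, rfl⟩; exact ⟨(hc𝓕 ht).1.hA', (hc𝓕 ht).1.hAc'⟩
    have he : f '' A₀ = p '' Z₀ := by
      apply Subset.antisymm
      · rintro _ ⟨x, hx, rfl⟩
        obtain ⟨ω, hω⟩ := inter_chain_nonempty hc' hcne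
          (fun t : Set Ω × Set X × Set X' => t.1 ∩ p ⁻¹' {f x})
          (fun s _ t _ hst => inter_subset_inter_left _ hst.1)
          (fun t ht => (hc𝓕 ht).1.hZ.inter (isClosed_singleton.preimage hp))
          (fun t ht => by
            have : f x ∈ p '' t.1 := by
              rw [← (hc𝓕 ht).1.e]; exact mem_image_of_mem _ (hAle t ht hx)
            obtain ⟨ω, hω, h⟩ := this
            exact ⟨ω, hω, h⟩)
        refine ⟨ω, ?_, (hω _ hy).2⟩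
        rintro _ ⟨t, ht, rfl⟩; exact (hω t ht).1
      · rintro _ ⟨ω, hω, rfl⟩
        obtain ⟨x, hx⟩ := inter_chain_nonempty hc' hcne
          (fun t : Set Ω × Set X × Set X' => t.2.1 ∩ f ⁻¹' {p ω})
          (fun s _ t _ hst => inter_subset_inter_left _ hst.2.1)
          (fun t ht => (hc𝓕 ht).1.hA.inter (isClosed_singleton.preimage hf))
          (fun t ht => by
            have : p ω ∈ f '' t.2.1 := by
              rw [(hc𝓕 ht).1.e]; exact mem_image_of_mem _ (hZle t ht hω)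
            obtain ⟨x, hx, h⟩ := this
            exact ⟨x, hx, h⟩)
        refine ⟨x, ?_, (hx _ hy).2⟩
        rintro _ ⟨t, ht, rfl⟩; exact (hx t ht).1
    have he' : f' '' A₀' = p' '' Z₀ := by
      apply Subset.antisymm
      · rintro _ ⟨x, hx, rfl⟩
        obtain ⟨ω, hω⟩ := inter_chain_nonempty hc' hcne
          (fun t : Set Ω × Set X × Set X' => t.1 ∩ p' ⁻¹' {f' x})
          (fun s _ t _ hst => inter_subset_inter_left _ hst.1)
          (fun t ht => (hc𝓕 ht).1.hZ.inter (isClosed_singleton.preimage hp'))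
          (fun t ht => by
            have : f' x ∈ p' '' t.1 := by
              rw [← (hc𝓕 ht).1.e']; exact mem_image_of_mem _ (hA'le t ht hx)
            obtain ⟨ω, hω, h⟩ := this
            exact ⟨ω, hω, h⟩)
        refine ⟨ω, ?_, (hω _ hy).2⟩
        rintro _ ⟨t, ht, rfl⟩; exact (hω t ht).1
      · rintro _ ⟨ω, hω, rfl⟩
        obtain ⟨x, hx⟩ := inter_chain_nonempty hc' hcne
          (fun t : Set Ω × Set X × Set X' => t.2.2 ∩ f' ⁻¹' {p' ω})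
          (fun s _ t _ hst => inter_subset_inter_left _ hst.2.2)
          (fun t ht => (hc𝓕 ht).1.hA'.inter (isClosed_singleton.preimage hf'))
          (fun t ht => by
            have : p' ω ∈ f' '' t.2.2 := by
              rw [(hc𝓕 ht).1.e']; exact mem_image_of_mem _ (hZle t ht hω)
            obtain ⟨x, hx, h⟩ := this
            exact ⟨x, hx, h⟩)
        refine ⟨x, ?_, (hx _ hy).2⟩
        rintro _ ⟨t, ht, rfl⟩; exact (hx t ht).1
    have hclW : ∀ t ∈ c, ∀ R : Set (X × X'), IsClosed R →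
        IsClosed {q : Ω × X × X' | q.1 ∈ t.1 ∧ q.2.1 ∈ t.2.1 ∧ q.2.2 ∈ t.2.2 ∧ f q.2.1 = p q.1 ∧
          f' q.2.2 = p' q.1 ∧ q.2 ∈ R} := by
      intro t ht R hR
      have h1 : IsClosed {q : Ω × X × X' | q.1 ∈ t.1} := (hc𝓕 ht).1.hZ.preimage continuous_fst
      have h2 : IsClosed {q : Ω × X × X' | q.2.1 ∈ t.2.1} :=
        (hc𝓕 ht).1.hA.preimage (continuous_fst.comp continuous_snd)
      have h3 : IsClosed {q : Ω × X × X' | q.2.2 ∈ t.2.2} :=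
        (hc𝓕 ht).1.hA'.preimage (continuous_snd.comp continuous_snd)
      have h4 : IsClosed {q : Ω × X × X' | f q.2.1 = p q.1} :=
        isClosed_eq (hf.comp (continuous_fst.comp continuous_snd)) (hp.comp continuous_fst)
      have h5 : IsClosed {q : Ω × X × X' | f' q.2.2 = p' q.1} :=
        isClosed_eq (hf'.comp (continuous_snd.comp continuous_snd)) (hp'.comp continuous_fst)
      have h6 : IsClosed {q : Ω × X × X' | q.2 ∈ R} := hR.preimage continuous_snd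
      exact h1.inter (h2.inter (h3.inter (h4.inter (h5.inter h6))))
    refine ⟨(Z₀, A₀, A₀'), ⟨⟨hZc.1, hZc.2, hAc.1, hAc.2, hA'c.1, hA'c.2, he, he'⟩, ?_, ?_⟩, ?_⟩
    · intro ω hω x hx x' hx' h1 h2
      exact (hc𝓕 hy).2.1 ω (hZle y hy hω) x (hAle y hy hx) x' (hA'le y hy hx') h1 h2
    · rintro (h | h)
      · obtain ⟨q, hq⟩ := inter_chain_nonempty hc' hcne
          (fun t : Set Ω × Set X × Set X' => {q : Ω × X × X' | q.1 ∈ t.1 ∧ q.2.1 ∈ t.2.1 ∧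
            q.2.2 ∈ t.2.2 ∧ f q.2.1 = p q.1 ∧ f' q.2.2 = p' q.1 ∧
            q.2 ∈ {r : X × X' | π' r.2 ≤ π r.1}})
          (fun s _ t _ hst q hq => ⟨hst.1 hq.1, hst.2.1 hq.2.1, hst.2.2 hq.2.2.1, hq.2.2.2⟩)
          (fun t ht => hclW t ht _ (isClosed_le (hπ'.comp continuous_snd) (hπ.comp continuous_fst)))
          (fun t ht => by
            obtain ⟨ω, hω, x, hx, x', hx', h1, h2, h3⟩ := hex1 t (hc𝓕 ht)
            exact ⟨(ω, x, x'), hω, hx, hx', h1, h2, h3⟩)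
        have := h q.1 (by rintro _ ⟨t, ht, rfl⟩; exact (hq t ht).1) q.2.1
          (by rintro _ ⟨t, ht, rfl⟩; exact (hq t ht).2.1) q.2.2
          (by rintro _ ⟨t, ht, rfl⟩; exact (hq t ht).2.2.1) (hq y hy).2.2.2.1 (hq y hy).2.2.2.2.1
        have h' := (hq y hy).2.2.2.2.2
        simp only [mem_ofPred_eq] at h'
        linarith
      · obtain ⟨q, hq⟩ := inter_chain_nonempty hc' hcne
          (fun t : Set Ω × Set X × Set X' => {q : Ω × X × X' | q.1 ∈ t.1 ∧ q.2.1 ∈ t.2.1 ∧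
            q.2.2 ∈ t.2.2 ∧ f q.2.1 = p q.1 ∧ f' q.2.2 = p' q.1 ∧
            q.2 ∈ {r : X × X' | π r.1 ≤ π' r.2}})
          (fun s _ t _ hst q hq => ⟨hst.1 hq.1, hst.2.1 hq.2.1, hst.2.2 hq.2.2.1, hq.2.2.2⟩)
          (fun t ht => hclW t ht _ (isClosed_le (hπ.comp continuous_fst) (hπ'.comp continuous_snd)))
          (fun t ht => by
            obtain ⟨ω, hω, x, hx, x', hx', h1, h2, h3⟩ := hex2 t (hc𝓕 ht)
            exact ⟨(ω, x, x'), hω, hx, hx', h1, h2, h3⟩)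
        have := h q.1 (by rintro _ ⟨t, ht, rfl⟩; exact (hq t ht).1) q.2.1
          (by rintro _ ⟨t, ht, rfl⟩; exact (hq t ht).2.1) q.2.2
          (by rintro _ ⟨t, ht, rfl⟩; exact (hq t ht).2.2.1) (hq y hy).2.2.2.1 (hq y hy).2.2.2.2.1
        have h' := (hq y hy).2.2.2.2.2
        simp only [mem_ofPred_eq] at this h'
        linarith
    · intro t ht
      exact (⟨hZle t ht, hAle t ht, hA'le t ht⟩ :
        ((Z₀, A₀, A₀') : Set Ω × Set X × Set X') ≤ t)) (Z, A, A') ⟨hgood, hne, hcon⟩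
  obtain ⟨Z₁, A₁, A₁'⟩ := m
  have hm𝓕 : ((Z₁, A₁, A₁') : Set Ω × Set X × Set X') ∈ 𝓕 := hm.1
  have hmin : ∀ K B B', Good f f' p p' K B B' → K ⊆ Z₁ → B ⊆ A₁ → B' ⊆ A₁' →
      ¬ (K = Z₁ ∧ B = A₁ ∧ B' = A₁') →
      AllLt f f' p p' π π' K B B' ∨
        AllLt f f' p p' (fun x => - π x) (fun x => - π' x) K B B' := by
    intro K B B' h1 h2 h3 h4 h5
    by_contra h6
    have hmem : ((K, B, B') : Set Ω × Set X × Set X') ∈ 𝓕 :=
      ⟨h1, fun ω hω x hx x' hx' => hm𝓕.2.1 ω (h2 hω) x (h3 hx) x' (h4 hx'), h6⟩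
    have h7 : ((Z₁, A₁, A₁') : Set Ω × Set X × Set X') ≤ (K, B, B') :=
      hm.2 hmem (show ((K, B, B') : Set Ω × Set X × Set X') ≤ (Z₁, A₁, A₁') from ⟨h2, h3, h4⟩)
    exact h5 ⟨Subset.antisymm h2 h7.1, Subset.antisymm h3 h7.2.1, Subset.antisymm h4 h7.2.2⟩
  have hg1 : Good f f' p p' Z₁ A₁ A₁' := hm𝓕.1
  have hne1 : AllNe f f' p p' π π' Z₁ A₁ A₁' := hm𝓕.2.1
  -- the two closed pieces of `Z₁`
  have hclW : ∀ R : Set (X × X'), IsClosed R →
      IsClosed (Prod.fst '' {q : Ω × X × X' | q.1 ∈ Z₁ ∧ q.2.1 ∈ A₁ ∧ q.2.2 ∈ A₁' ∧ f q.2.1 = p q.1 ∧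
        f' q.2.2 = p' q.1 ∧ q.2 ∈ R}) := by
    intro R hR
    have h1 : IsClosed {q : Ω × X × X' | q.1 ∈ Z₁} := hg1.hZ.preimage continuous_fst
    have h2 : IsClosed {q : Ω × X × X' | q.2.1 ∈ A₁} :=
      hg1.hA.preimage (continuous_fst.comp continuous_snd)
    have h3 : IsClosed {q : Ω × X × X' | q.2.2 ∈ A₁'} :=
      hg1.hA'.preimage (continuous_snd.comp continuous_snd)
    have h4 : IsClosed {q : Ω × X × X' | f q.2.1 = p q.1} :=
      isClosed_eq (hf.comp (continuous_fst.comp continuous_snd)) (hp.comp continuous_fst)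
    have h5 : IsClosed {q : Ω × X × X' | f' q.2.2 = p' q.1} :=
      isClosed_eq (hf'.comp (continuous_snd.comp continuous_snd)) (hp'.comp continuous_fst)
    have h6 : IsClosed {q : Ω × X × X' | q.2 ∈ R} := hR.preimage continuous_snd
    exact ((h1.inter (h2.inter (h3.inter (h4.inter (h5.inter h6))))).isCompact.image
      continuous_fst).isClosed
  obtain ⟨ω₁, hω₁, x₁, hx₁, x₁', hx₁', a1, a2, a3⟩ := hex1 _ hm𝓕
  obtain ⟨ω₂, hω₂, x₂, hx₂, x₂', hx₂', b1, b2, b3⟩ := hex2 _ hm𝓕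
  obtain ⟨z, hzZ, ⟨⟨w₁, y₁, y₁'⟩, ⟨k1, k2, k3, k4, k5, k6⟩, k7⟩,
      ⟨⟨w₂, y₂, y₂'⟩, ⟨l1, l2, l3, l4, l5, l6⟩, l7⟩⟩ :=
    isPreconnected_closed_iff.mp hg1.hZc.isPreconnected _ _
      (hclW {r : X × X' | π' r.2 ≤ π r.1}
        (isClosed_le (hπ'.comp continuous_snd) (hπ.comp continuous_fst)))
      (hclW {r : X × X' | π r.1 ≤ π' r.2}
        (isClosed_le (hπ.comp continuous_fst) (hπ'.comp continuous_snd)))
      (by
        intro ω hω
        have : p ω ∈ f '' A₁ := by rw [hg1.e]; exact mem_image_of_mem _ hω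
        obtain ⟨x, hx, hxω⟩ := this
        have : p' ω ∈ f' '' A₁' := by rw [hg1.e']; exact mem_image_of_mem _ hω
        obtain ⟨x', hx', hx'ω⟩ := this
        rcases le_total (π' x') (π x) with h | h
        · exact Or.inl ⟨(ω, x, x'), ⟨hω, hx, hx', hxω, hx'ω, h⟩, rfl⟩
        · exact Or.inr ⟨(ω, x, x'), ⟨hω, hx, hx', hxω, hx'ω, h⟩, rfl⟩)
      ⟨ω₁, hω₁, (ω₁, x₁, x₁'), ⟨hω₁, hx₁, hx₁', a1, a2, a3⟩, rfl⟩
      ⟨ω₂, hω₂, (ω₂, x₂, x₂'), ⟨hω₂, hx₂, hx₂', b1, b2, b3⟩, rfl⟩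
  simp only at k1 k2 k3 k4 k5 k7 l1 l2 l3 l4 l5 l7
  simp only [mem_ofPred_eq] at k6 l6
  subst k7
  subst l7
  -- now compare `(y₂, y₁')`
  have hk : π' y₁' < π y₁ := lt_of_le_of_ne k6 (fun h => hne1 w₂ l1 y₁ k2 y₁' k3 k4 k5 h.symm)
  have hl : π y₂ < π' y₂' := lt_of_le_of_ne l6 (hne1 w₂ l1 y₂ l2 y₂' l3 l4 l5)
  have hmin' : ∀ (K : Set Ω) (B : Set X') (B' : Set X), Good f' f p' p K B B' → K ⊆ Z₁ → B ⊆ A₁' →
      B' ⊆ A₁ → ¬ (K = Z₁ ∧ B = A₁' ∧ B' = A₁) →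
      AllLt f' f p' p π' π K B B' ∨
        AllLt f' f p' p (fun x => - π' x) (fun x => - π x) K B B' := by
    intro K B B' h1 h2 h3 h4 h5
    rcases hmin K B' B ⟨h1.hZ, h1.hZc, h1.hA', h1.hAc', h1.hA, h1.hAc, h1.e', h1.e⟩ h2 h4 h3
      (fun h => h5 ⟨h.1, h.2.2, h.2.1⟩) with h | h
    · right
      intro ω hω x' hx' x hx q1 q2
      have := h ω hω x hx x' hx' q2 q1
      simp only
      linarith
    · left
      intro ω hω x' hx' x hx q1 q2
      have := h ω hω x hx x' hx' q2 q1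
      simp only at this
      linarith
  have hg1' : Good f' f p' p Z₁ A₁' A₁ :=
    ⟨hg1.hZ, hg1.hZc, hg1.hA', hg1.hAc', hg1.hA, hg1.hAc, hg1.e', hg1.e⟩
  have hne1' : AllNe f' f p' p π' π Z₁ A₁' A₁ := fun ω hω x' hx' x hx q1 q2 h =>
    hne1 ω hω x hx x' hx' q2 q1 h.symm
  rcases lt_or_gt_of_ne (hne1 w₂ l1 y₂ l2 y₁' k3 l4 k5) with h | h
  · -- `u' = y₁'`, `u₁ = y₂`, `u₂ = y₁`
    exact core hY hY' hf hf' hp hp' hπ hπ' hg1 hne1 hmin l1 l2 k2 k3 l4 k4 k5 h hk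
  · -- `y₂` has partners `y₁'` (lower) and `y₂'` (upper)
    exact core hY' hY hf' hf hp' hp hπ' hπ hg1' hne1' hmin' l1 k3 l3 l2 k5 l5 l4 h hl

end Compare

/-- [G] -/
theorem sign_const {X X' Y Y' : Type*} [MetricSpace X] [CompactSpace X] [MetricSpace X']
    [CompactSpace X'] [MetricSpace Y] [CompactSpace Y] [MetricSpace Y'] [CompactSpace Y']
    (hY : HI Y) (hY' : HI Y') {f : X → Y} {f' : X' → Y'} (hf : Continuous f) (hf' : Continuous f')
    {π : X → ℝ} {π' : X' → ℝ} (hπ : Continuous π) (hπ' : Continuous π')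
    {Z : Set (Y × Y')} {A : Set X} {A' : Set X'} (hZ : IsClosed Z) (hZc : IsConnected Z)
    (hA : IsClosed A) (hAc : IsConnected A) (hA' : IsClosed A') (hAc' : IsConnected A')
    (hfA : f '' A = Prod.fst '' Z) (hfA' : f' '' A' = Prod.snd '' Z)
    (hne : ∀ x ∈ A, ∀ x' ∈ A', (f x, f' x') ∈ Z → π x ≠ π' x') :
    (∀ x ∈ A, ∀ x' ∈ A', (f x, f' x') ∈ Z → π x < π' x') ∨
    (∀ x ∈ A, ∀ x' ∈ A', (f x, f' x') ∈ Z → π' x' < π x) := by
  have hgood : Good f f' Prod.fst Prod.snd Z A A' := ⟨hZ, hZc, hA, hAc, hA', hAc', hfA, hfA'⟩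
  rcases sign_const_abs hY hY' hf hf' continuous_fst continuous_snd hπ hπ' hgood
    (by
      rintro ⟨y, y'⟩ hω x hx x' hx' h1 h2
      simp only at h1 h2
      subst h1
      subst h2
      exact hne x hx x' hx' hω) with h | h
  · left
    intro x hx x' hx' hz
    exact h _ hz x hx x' hx' rfl rfl
  · right
    intro x hx x' hx' hz
    have := h _ hz x hx x' hx' rfl rfl
    simp only at this
    linarith

/-- [G'] -/
theorem exists_meeting {M Y : Type*} [MetricSpace M] [CompactSpace M] [ConnectedSpace M]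
    [MetricSpace Y] [CompactSpace Y] (hY : HI Y) {φ : M → Y} (hφ : Continuous φ)
    (hsurj : Function.Surjective φ) {π : M → ℝ} (hπ : Continuous π)
    {Z : Set (Y × Y)} (hZ : IsClosed Z) (hZc : IsConnected Z) (hZs : Prod.fst '' Z = Prod.snd '' Z) :
    ∃ m m' : M, (φ m, φ m') ∈ Z ∧ π m = π m' := by
  by_contra hcon
  push Not at hcon
  obtain ⟨z₀, hz₀⟩ := hZc.nonempty
  obtain ⟨m₀, hm₀⟩ := hsurj z₀.1
  have hKcl : IsClosed (Prod.fst '' Z) := (hZ.isCompact.image continuous_fst).isClosed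
  have hKc : IsConnected (Prod.fst '' Z) := hZc.image _ continuous_fst.continuousOn
  have hm₀K : φ m₀ ∈ Prod.fst '' Z := by rw [hm₀]; exact mem_image_of_mem _ hz₀
  obtain ⟨h1, h2⟩ := exists_lift_component hY hφ isClosed_univ isConnected_univ hKcl hKc
    (by rw [image_univ, hsurj.range_eq]; exact subset_univ _) (mem_univ m₀) hm₀K
  set A := connectedComponentIn (univ ∩ φ ⁻¹' (Prod.fst '' Z)) m₀ with hA
  have hAc : IsConnected A := isConnected_connectedComponentIn_iff.mpr ⟨mem_univ _, hm₀K⟩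
  obtain ⟨a, haA, hmax⟩ := h1.isCompact.exists_isMaxOn hAc.nonempty hπ.continuousOn
  have haK : φ a ∈ Prod.fst '' Z := by rw [← h2]; exact mem_image_of_mem _ haA
  have hpart : ∃ b ∈ A, (φ a, φ b) ∈ Z := by
    obtain ⟨⟨y, y'⟩, hz, hy⟩ := haK
    have : y' ∈ φ '' A := by rw [h2, hZs]; exact ⟨_, hz, rfl⟩
    obtain ⟨b, hb, rfl⟩ := this
    simp only at hy
    subst hy
    exact ⟨b, hb, hz⟩
  have hpart' : ∃ b ∈ A, (φ b, φ a) ∈ Z := by
    rw [hZs] at haK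
    obtain ⟨⟨y, y'⟩, hz, hy⟩ := haK
    have : y ∈ φ '' A := by rw [h2]; exact ⟨_, hz, rfl⟩
    obtain ⟨b, hb, rfl⟩ := this
    simp only at hy
    subst hy
    exact ⟨b, hb, hz⟩
  obtain ⟨b, hb, hab⟩ := hpart
  obtain ⟨b', hb', hab'⟩ := hpart'
  have hb1 : π b ≤ π a := hmax hb
  have hb2 : π b' ≤ π a := hmax hb'
  rcases sign_const hY hY hφ hφ hπ hπ hZ hZc h1 hAc h1 hAc h2 (h2.trans hZs)
    (fun x _ x' _ h => hcon x x' h) with h | h
  · have := h a haA b hb hab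
    linarith
  · have := h b' hb' a haA hab'
    linarith

end Pool.Agent.MP_a56558_gt
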