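import Pool.Agent.MP_a56558_gt.WalkB

set_option autoImplicit false

namespace Pool.Agent.MP_a56558_gt

open Set Filter Topology



/-! ### Block W, part C -/

/-- Two positions of a walk whose indices differ by at most one are `δ`-close. -/
theorem IsWalk.dist_lt {X : Type*} [MetricSpace X] {δ : ℝ} (hδ : 0 < δ) {B : Set X} {l : List X}
    (hl : IsWalk δ B l) {i j : ℕ} {y z : X} (hi : l[i]? = some y) (hj : l[j]? = some z)
    (h1 : i ≤ j + 1) (h2 : j ≤ i + 1) : dist y z < δ := by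
  obtain ⟨hi', rfl⟩ := List.getElem?_eq_some_iff.mp hi
  obtain ⟨hj', rfl⟩ := List.getElem?_eq_some_iff.mp hj
  have hc := List.isChain_iff_getElem.mp hl.2.1
  have h3 : i = j ∨ i + 1 = j ∨ j + 1 = i := by omega
  rcases h3 with rfl | rfl | rfl
  · simpa using hδ
  · exact hc i (by omega)
  · rw [dist_comm]
    exact hc j (by omega)

/-- Slots of the same level differ by at most one. -/
theorem slot_le {i j : ℕ} {s : ℝ} (h1 : (i : ℝ) ≤ s) (h2 : s ≤ (j : ℝ) + 1) : i ≤ j + 1 := by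
  have h : (i : ℝ) ≤ ((j + 1 : ℕ) : ℝ) := by push_cast; linarith
  exact_mod_cast h

/-- The pairs (position of the walker, position of the evader). -/
def Pairs {X : Type*} (l : List X) (C : Set (X × ℝ)) : Set (X × X) :=
  {q | ∃ (i : ℕ) (s : ℝ), l[i]? = some q.1 ∧ (q.2, s) ∈ C ∧ (i : ℝ) ≤ s ∧ s ≤ (i : ℝ) + 1}

section

variable {X : Type*} [MetricSpace X] {e δ : ℝ} {B : Set X} {l : List X} {C : Set (X × ℝ)}

theorem chainConn_pairs (hδ : 0 < δ) (hl : IsWalk δ B l) (hC : Evader e B l C) {η : ℝ}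
    (hη : 0 < η) (hδη : δ ≤ η) : ChainConn η (Pairs l C) := by
  rintro ⟨y, x⟩ ⟨i, s, h1, h2, h3, h4⟩ ⟨y', x'⟩ ⟨i', s', h1', h2', h3', h4'⟩
  simp only at h1 h2 h1' h2'
  set η' : ℝ := min η (1 / 3) with hη'
  have hη'0 : 0 < η' := lt_min hη (by norm_num)
  have hchain := chainConn_of_isPreconnected hC.1.2.1.isPreconnected hη'0 (x, s) h2 (x', s') h2'
  -- generalise
  have key : ∀ q : X × ℝ, Relation.ReflTransGen
      (fun a b => a ∈ C ∧ b ∈ C ∧ dist a b < η') (x, s) q →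
      q ∈ C ∧ ∃ (j : ℕ) (z : X), l[j]? = some z ∧ (j : ℝ) ≤ q.2 ∧ q.2 ≤ (j : ℝ) + 1 ∧
        Relation.ReflTransGen (fun a b => a ∈ Pairs l C ∧ b ∈ Pairs l C ∧ dist a b < η)
          (y, x) (z, q.1) := by
    intro q hq
    induction hq with
    | refl => exact ⟨h2, i, y, h1, h3, h4, Relation.ReflTransGen.refl⟩
    | @tail b c _ hbc ih =>
      obtain ⟨hbC, j, z, hz, hj1, hj2, hR⟩ := ih
      obtain ⟨-, hcC, hd⟩ := hbc
      have hd1 : dist b.1 c.1 < η' := (le_max_left _ _).trans_lt (by rwa [Prod.dist_eq] at hd)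
      have hd2 : dist b.2 c.2 < η' := (le_max_right _ _).trans_lt (by rwa [Prod.dist_eq] at hd)
      have hη3 : η' ≤ 1 / 3 := min_le_right _ _
      have hηη : η' ≤ η := min_le_left _ _
      rw [Real.dist_eq, abs_lt] at hd2
      have hclev := hC.1.2.2.2.1 c hcC
      obtain ⟨hjl, hjz⟩ := List.getElem?_eq_some_iff.mp hz
      have hslot : ∃ (k : ℕ) (z' : X), l[k]? = some z' ∧ (k : ℝ) ≤ c.2 ∧ c.2 ≤ (k : ℝ) + 1 ∧
          j ≤ k + 1 ∧ k ≤ j + 1 := by
        by_cases hlow : c.2 < (j : ℝ)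
        · have hj0 : 0 < j := by
            rcases Nat.eq_zero_or_pos j with h0 | h0
            · rw [h0] at hlow
              have := hclev.1
              norm_num at hlow this
              linarith
            · exact h0
          obtain ⟨m, rfl⟩ : ∃ m, j = m + 1 := ⟨j - 1, by omega⟩
          push_cast at hlow hj1 hj2
          refine ⟨m, l[m], List.getElem?_eq_getElem (by omega), by linarith, by linarith,
            by omega, by omega⟩
        · by_cases hhigh : (j : ℝ) + 1 < c.2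
          · have hjl' : j + 1 < l.length := by
              have h5 : ((j : ℝ) + 1) < (l.length : ℝ) := by linarith [hclev.2]
              exact_mod_cast h5
            refine ⟨j + 1, l[j + 1], List.getElem?_eq_getElem hjl', by push_cast; linarith,
              by push_cast; linarith, by omega, by omega⟩
          · exact ⟨j, z, hz, by linarith, by linarith, by omega, by omega⟩
      obtain ⟨k, z', hk, hk1, hk2, hk3, hk4⟩ := hslot
      refine ⟨hcC, k, z', hk, hk1, hk2, hR.tail ⟨?_, ?_, ?_⟩⟩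
      · exact ⟨j, b.2, hz, hbC, hj1, hj2⟩
      · exact ⟨k, c.2, hk, hcC, hk1, hk2⟩
      · rw [Prod.dist_eq]
        apply max_lt
        · exact (hl.dist_lt hδ hz hk hk3 hk4).trans_le hδη
        · exact hd1.trans_le hηη
  obtain ⟨-, j, z, hz, hj1, hj2, hR⟩ := key _ hchain
  refine hR.tail ⟨⟨j, s', hz, h2', hj1, hj2⟩, ⟨i', s', h1', h2', h3', h4'⟩, ?_⟩
  rw [Prod.dist_eq]
  apply max_lt
  · exact (hl.dist_lt hδ hz h1' (slot_le hj1 h4') (slot_le h3' hj2)).trans_le hδη
  · simpa using hη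

theorem dist_pairs (hδ : 0 < δ) (hl : IsWalk δ B l) (hC : Evader e B l C) {q : X × X}
    (hq : q ∈ Pairs l C) : e - δ ≤ dist q.1 q.2 := by
  obtain ⟨i, s, h1, h2, h3, h4⟩ := hq
  obtain ⟨j, z, h5, h6, h7, h8⟩ := hC.1.2.2.1 h2
  simp only at h6 h7 h8
  have h9 := hl.dist_lt hδ h1 h5 (slot_le h3 h7) (slot_le h6 h4)
  have h10 := dist_triangle q.2 q.1 z
  rw [dist_comm q.2 q.1] at h10
  linarith

theorem snd_pairs (hC : Evader e B l C) : Prod.snd '' Pairs l C = Prod.fst '' C := by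
  ext x
  constructor
  · rintro ⟨q, ⟨i, s, h1, h2, h3, h4⟩, rfl⟩
    exact ⟨(q.2, s), h2, rfl⟩
  · rintro ⟨p, hp, rfl⟩
    obtain ⟨j, z, h5, h6, h7, -⟩ := hC.1.2.2.1 hp
    exact ⟨(z, p.1), ⟨j, p.2, h5, hp, h6, h7⟩, rfl⟩

theorem fst_pairs (hC : Evader e B l C) : Prod.fst '' Pairs l C = {y | y ∈ l} := by
  ext y
  constructor
  · rintro ⟨q, ⟨i, s, h1, h2, h3, h4⟩, rfl⟩
    exact List.mem_of_getElem? h1
  · intro hy
    obtain ⟨i, hi, rfl⟩ := List.mem_iff_getElem.mp hy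
    obtain ⟨⟨hcl, hconn, -, -, ⟨p, hp, hp1⟩, ⟨p', hp', hp1'⟩⟩, -⟩ := hC
    have hpre : IsPreconnected (Prod.snd '' C) :=
      hconn.isPreconnected.image _ continuous_snd.continuousOn
    have hIcc := hpre.Icc_subset ⟨p, hp, hp1⟩ ⟨p', hp', hp1'⟩
    have hi' : ((i + 1 : ℕ) : ℝ) ≤ (l.length : ℝ) := by exact_mod_cast hi
    push_cast at hi'
    have hi0 : (0 : ℝ) ≤ (i : ℝ) := Nat.cast_nonneg i
    obtain ⟨c, hc, hc'⟩ := hIcc (show (i : ℝ) + 1 / 2 ∈ Icc (1 / 3 : ℝ) ((l.length : ℝ) - 1 / 3) from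
      ⟨by linarith, by linarith⟩)
    refine ⟨(l[i], c.1), ⟨i, c.2, List.getElem?_eq_getElem hi, hc, ?_, ?_⟩, rfl⟩
    · rw [hc']; linarith
    · rw [hc']; linarith

end

theorem ulim_eq_of_dense {ι α : Type*} [PseudoMetricSpace α] {U : Ultrafilter ι} {A B : ι → Set α}
    (h1 : ∀ᶠ i in (U : Filter ι), A i ⊆ B i)
    (h2 : ∀ η : ℝ, 0 < η → ∀ᶠ i in (U : Filter ι), ∀ b ∈ B i, ∃ a ∈ A i, dist b a < η) :
    ulim U A = ulim U B := by
  apply Subset.antisymm
  · intro p hp η hη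
    filter_upwards [h1, hp η hη] with i hi ⟨a, ha, hd⟩
    exact ⟨a, hi ha, hd⟩
  · intro p hp η hη
    filter_upwards [h2 (η / 2) (by positivity), hp (η / 2) (by positivity)] with i hi ⟨b, hb, hd⟩
    obtain ⟨a, ha, hd'⟩ := hi b hb
    exact ⟨a, ha, by have := dist_triangle p b a; linarith⟩

/-- [W6] span zero kills survivors -/
theorem not_surv_of_spanZero {X : Type*} [MetricSpace X] [CompactSpace X] [ConnectedSpace X]
    (hX : SpanZero X) {e δ : ℝ} (he : 0 < e) (hδ : 0 < δ) : ¬ Surv e δ (univ : Set X) := by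
  intro hS
  have hδn : ∀ n : ℕ, 0 < min δ (1 / ((n : ℝ) + 1)) := fun n => lt_min hδ (by positivity)
  have hSn : ∀ n : ℕ, Surv e (min δ (1 / ((n : ℝ) + 1))) (univ : Set X) := by
    intro n l hl
    exact hS l ⟨hl.1, hl.2.1.imp fun a b h => h.trans_le (min_le_left _ _), hl.2.2⟩
  have hex := fun n : ℕ => exists_dense_evader (ρ := 1 / ((n : ℝ) + 1)) (hδn n) (by positivity)
    (hSn n)
  choose B l C hl hC hd using hex
  let U : Ultrafilter ℕ := hyperfilter ℕ
  have hU : ∀ P : ℕ → Prop, (∀ᶠ n in atTop, P n) → ∀ᶠ n in (U : Filter ℕ), P n :=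
    fun P hP => Nat.hyperfilter_le_atTop hP
  have hlim : Tendsto (fun n : ℕ => 1 / ((n : ℝ) + 1)) atTop (𝓝 0) :=
    tendsto_one_div_add_atTop_nhds_zero_nat
  have hsmall : ∀ η : ℝ, 0 < η → ∀ᶠ n : ℕ in (U : Filter ℕ), 1 / ((n : ℝ) + 1) < η :=
    fun η hη => hU _ (hlim.eventually_lt_const hη)
  set S : ℕ → Set (X × X) := fun n => Pairs (l n) (C n) with hSdef
  have hK : IsCompact (univ : Set (X × X)) := isCompact_univ
  have hSK : ∀ᶠ n in (U : Filter ℕ), S n ⊆ univ := Eventually.of_forall fun n => subset_univ _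
  have hSne : ∀ n, (S n).Nonempty := by
    intro n
    have h1 : (Prod.snd '' S n).Nonempty := by
      rw [hSdef, snd_pairs (hC n)]
      exact (hC n).1.2.1.nonempty.image _
    exact h1.of_image
  have hconn : IsConnected (ulim U S) := by
    refine isConnected_ulim hK hSK (Eventually.of_forall hSne) ?_
    intro η hη
    filter_upwards [hsmall η hη] with n hn
    exact chainConn_pairs (hδn n) (hl n) (hC n) hη ((min_le_right _ _).trans hn.le)
  have hfst : Prod.fst '' ulim U S = ulim U B := by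
    rw [image_ulim hK hSK continuous_fst]
    apply ulim_eq_of_dense
    · refine Eventually.of_forall fun n => ?_
      rw [hSdef, fst_pairs (hC n)]
      exact (hl n).2.2
    · intro η hη
      filter_upwards [hsmall η hη] with n hn b hb
      rw [hSdef, fst_pairs (hC n)]
      obtain ⟨a, ha, hab⟩ := (hd n b hb).1
      exact ⟨a, ha, hab.trans hn⟩
  have hsnd : Prod.snd '' ulim U S = ulim U B := by
    rw [image_ulim hK hSK continuous_snd]
    apply ulim_eq_of_dense
    · refine Eventually.of_forall fun n => ?_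
      rw [hSdef, snd_pairs (hC n)]
      rintro _ ⟨p, hp, rfl⟩
      exact (hC n).2 p hp
    · intro η hη
      filter_upwards [hsmall η hη] with n hn b hb
      rw [hSdef, snd_pairs (hC n)]
      obtain ⟨c, hc, hbc⟩ := (hd n b hb).2
      exact ⟨c.1, ⟨c, hc, rfl⟩, hbc.trans hn⟩
  obtain ⟨x, hx⟩ := hX (ulim U S) (isClosed_ulim U S) hconn (hfst.trans hsnd.symm)
  have hF : IsClosed {q : X × X | e / 2 ≤ dist q.1 q.2} :=
    isClosed_le continuous_const (continuous_fst.dist continuous_snd)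
  have hsub : ulim U S ⊆ {q : X × X | e / 2 ≤ dist q.1 q.2} := by
    apply ulim_subset_of_closed hF
    filter_upwards [hsmall (e / 2) (by positivity)] with n hn q hq
    have h1 := dist_pairs (hδn n) (hl n) (hC n) hq
    have h2 : min δ (1 / ((n : ℝ) + 1)) ≤ e / 2 := (min_le_right _ _).trans hn.le
    show e / 2 ≤ dist q.1 q.2
    linarith
  have h3 : e / 2 ≤ dist x x := hsub hx
  rw [dist_self] at h3
  linarith

/-- [W7] Lemma S -/
theorem exists_thin_continuum {X : Type*} [MetricSpace X] [CompactSpace X] [ConnectedSpace X]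
    (hX : SpanZero X) {ε : ℝ} (hε : 0 < ε) :
    ∃ M : Set (X × ℝ), IsCompact M ∧ IsConnected M ∧ Prod.fst '' M = univ ∧
      ∀ x x' : X, ∀ s : ℝ, (x, s) ∈ M → (x', s) ∈ M → dist x x' ≤ ε := by
  have h := not_surv_of_spanZero hX (e := ε / 3) (δ := ε / 3) (by positivity) (by positivity)
  unfold Surv at h
  push Not at h
  obtain ⟨l, hl, hno⟩ := h
  rcases catch_or_evade (e := ε / 3) l hl.1 with ⟨M, hM1, hM2, hM3, hM4⟩ | ⟨C, hC⟩
  swap
  · exact absurd hC (hno C)
  have hsub : M ⊆ (univ : Set X) ×ˢ Icc (0 : ℝ) (l.length : ℝ) := by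
    intro p hp
    obtain ⟨i, y, hy, h1, h2, -⟩ := hM3 hp
    obtain ⟨hi, -⟩ := List.getElem?_eq_some_iff.mp hy
    have hi' : ((i + 1 : ℕ) : ℝ) ≤ (l.length : ℝ) := by exact_mod_cast hi
    push_cast at hi'
    have hi0 : (0 : ℝ) ≤ (i : ℝ) := Nat.cast_nonneg i
    exact ⟨mem_univ _, by linarith, by linarith⟩
  refine ⟨M, (isCompact_univ.prod isCompact_Icc).of_isClosed_subset hM1 hsub, hM2, hM4, ?_⟩
  intro x x' s h1 h2
  obtain ⟨i, y, hy, h3, h4, h5⟩ := hM3 h1
  obtain ⟨j, z, hz, h6, h7, h8⟩ := hM3 h2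
  simp only at h3 h4 h5 h6 h7 h8
  have h9 := hl.dist_lt (by positivity) hy hz (slot_le h3 h7) (slot_le h6 h4)
  have h10 := dist_triangle4 x y z x'
  rw [dist_comm z x'] at h10
  linarith

end Pool.Agent.MP_a56558_gt
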