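import Pool.Agent.MP_a56558_gt.Gthm
import Pool.Agent.MP_a56558_gt.WalkC

set_option autoImplicit false

namespace Pool.Agent.MP_a56558_gt

open Set Filter Topology

/-- Main theorem T3: a hereditarily indecomposable continuous image of a continuum of span zero
has span zero. -/
theorem spanZero_of_HI {X Y : Type*} [MetricSpace X] [CompactSpace X] [ConnectedSpace X]
    [MetricSpace Y] [CompactSpace Y] {f : X → Y} (hf : Continuous f)
    (hs : Function.Surjective f) (hY : HI Y) (hX : SpanZero X) : SpanZero Y := by
  intro Z hZ hZc hZs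
  by_contra hcon
  push Not at hcon
  -- pairs of points of `X` over `Z` are uniformly apart
  obtain ⟨ε, hε, hsep⟩ : ∃ ε : ℝ, 0 < ε ∧ ∀ x x' : X, (f x, f x') ∈ Z → ε < dist x x' := by
    set P : Set (X × X) := {q | (f q.1, f q.2) ∈ Z} with hP
    have hPc : IsClosed P :=
      hZ.preimage ((hf.comp continuous_fst).prodMk (hf.comp continuous_snd))
    rcases P.eq_empty_or_nonempty with h | h
    · exact ⟨1, one_pos, fun x x' hx => by
        have : (x, x') ∈ P := hx
        rw [h] at this
        exact this.elim⟩
    · obtain ⟨q, hq, hmin⟩ := hPc.isCompact.exists_isMinOn h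
        (continuous_fst.dist continuous_snd : Continuous fun q : X × X => dist q.1 q.2).continuousOn
      have hpos : 0 < dist q.1 q.2 := by
        rw [dist_pos]
        intro he
        apply hcon (f q.1)
        have : (f q.1, f q.2) ∈ Z := hq
        rwa [← he] at this
      refine ⟨dist q.1 q.2 / 2, by positivity, fun x x' hx => ?_⟩
      have h1 : dist q.1 q.2 ≤ dist x x' := hmin (show (x, x') ∈ P from hx)
      linarith
  obtain ⟨M, hMc, hMconn, hMX, hthin⟩ := exists_thin_continuum hX hε
  have : CompactSpace M := isCompact_iff_compactSpace.mp hMc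
  have : ConnectedSpace M := isConnected_iff_connectedSpace.mp hMconn
  have hφ : Continuous fun m : M => f m.1.1 := hf.comp (continuous_fst.comp continuous_subtype_val)
  have hsurj : Function.Surjective fun m : M => f m.1.1 := by
    intro y
    obtain ⟨x, rfl⟩ := hs y
    have : x ∈ Prod.fst '' M := by rw [hMX]; exact mem_univ _
    obtain ⟨m, hm, rfl⟩ := this
    exact ⟨⟨m, hm⟩, rfl⟩
  obtain ⟨m, m', h1, h2⟩ := exists_meeting hY hφ hsurj
    (π := fun m : M => m.1.2) (continuous_snd.comp continuous_subtype_val) hZ hZc hZs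
  have h3 := hsep _ _ h1
  obtain ⟨⟨x, s⟩, hm⟩ := m
  obtain ⟨⟨x', s'⟩, hm'⟩ := m'
  simp only at h2 h3
  subst h2
  have := hthin x x' s hm hm'
  linarith

theorem isClosed_ccIn {X : Type*} [TopologicalSpace X] {F : Set X} (hF : IsClosed F) {x : X}
    (hx : x ∈ F) : IsClosed (connectedComponentIn F x) := by
  rw [← closure_subset_iff_isClosed]
  exact isPreconnected_connectedComponentIn.closure.subset_connectedComponentIn
    (subset_closure (mem_connectedComponentIn hx))
    (closure_minimal (connectedComponentIn_subset _ _) hF)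

/-- Confluent images of hereditarily indecomposable continua are hereditarily indecomposable. -/
theorem hi_of_confluent {X Y : Type*} [TopologicalSpace X] [TopologicalSpace Y] {f : X → Y}
    (hf : Continuous f) (hs : Function.Surjective f)
    (hconf : ∀ K : Set Y, IsClosed K → IsConnected K → ∀ x ∈ f ⁻¹' K,
      f '' connectedComponentIn (f ⁻¹' K) x = K) (hX : HI X) : HI Y := by
  intro K L hK hKc hL hLc ⟨y, hyK, hyL⟩
  obtain ⟨x, rfl⟩ := hs y
  have h1 := hconf K hK hKc x hyK
  have h2 := hconf L hL hLc x hyL
  rcases hX (connectedComponentIn (f ⁻¹' K) x) (connectedComponentIn (f ⁻¹' L) x)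
    (isClosed_ccIn (hK.preimage hf) hyK) (isConnected_connectedComponentIn_iff.mpr hyK)
    (isClosed_ccIn (hL.preimage hf) hyL) (isConnected_connectedComponentIn_iff.mpr hyL)
    ⟨x, mem_connectedComponentIn hyK, mem_connectedComponentIn hyL⟩ with h | h
  · left; rw [← h1, ← h2]; exact image_mono h
  · right; rw [← h1, ← h2]; exact image_mono h

end Pool.Agent.MP_a56558_gt
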