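import Pool.Agent.MP_a56558_gt.Top

set_option autoImplicit false

namespace Pool.Agent.MP_a56558_gt

open Set Filter Topology

section Level

variable {X : Type*} [MetricSpace X]

/-- The circle valued function attached to `φ`. -/
noncomputable def circ (u φ : X × ℝ → ℝ) (p : X × ℝ) : AddCircle (1 : ℝ) :=
  if u p ≤ 1 / 2 then ((φ p / 2 : ℝ) : AddCircle (1 : ℝ)) else ((-φ p / 2 : ℝ) : AddCircle (1 : ℝ))

/-- `B` is a closed-open part of the level set with winding number `0`. -/
def NullPart (u : X × ℝ → ℝ) (a b : ℝ) (B : Set (X × ℝ)) : Prop :=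
  ∃ φ : X × ℝ → ℝ, Continuous φ ∧ (∀ p ∈ B, φ p = 1) ∧ (∀ p, u p = 1 / 2 → p ∉ B → φ p = 0) ∧
    (∀ p : X × ℝ, p.2 = a → φ p = 0) ∧ (∀ p : X × ℝ, p.2 = b → φ p = 0) ∧
    ∃ θ : unitInterval × X → ℝ, Continuous θ ∧
      (∀ (t : unitInterval) (x : X),
        ((θ (t, x) : ℝ) : AddCircle (1 : ℝ)) = circ u φ (x, a + t * (b - a))) ∧
      (∀ x, θ (0, x) = 0) ∧ (∀ x, θ (1, x) = 0)

lemma continuous_circ {u φ : X × ℝ → ℝ} (hu : Continuous u) (hφ : Continuous φ)
    (h : ∀ p, u p = 1 / 2 → φ p = 0 ∨ φ p = 1) : Continuous (circ u φ) := by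
  unfold circ
  refine Continuous.if_le ?_ ?_ hu continuous_const ?_
  · exact (AddCircle.continuous_mk' (1 : ℝ)).comp (hφ.div_const 2)
  · exact (AddCircle.continuous_mk' (1 : ℝ)).comp (hφ.neg.div_const 2)
  · intro p hp
    rcases h p hp with h0 | h1
    · rw [h0]; norm_num
    · rw [h1]
      have : ((1 / 2 : ℝ)) = (-1 / 2 : ℝ) + 1 := by norm_num
      rw [this, AddCircle.coe_add, AddCircle.coe_period, add_zero]

omit [MetricSpace X] in
lemma circ_add (u φ ψ : X × ℝ → ℝ) (p : X × ℝ) :
    circ u (fun q => φ q + ψ q) p = circ u φ p + circ u ψ p := by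
  unfold circ
  split_ifs
  · rw [← AddCircle.coe_add]; congr 1; ring
  · rw [← AddCircle.coe_add]; congr 1; ring

lemma NullPart.union {u : X × ℝ → ℝ} {a b : ℝ} {A B : Set (X × ℝ)} (hA : NullPart u a b A)
    (hB : NullPart u a b B) (hd : Disjoint A B) (hA' : ∀ p ∈ A, u p = 1 / 2)
    (hB' : ∀ p ∈ B, u p = 1 / 2) : NullPart u a b (A ∪ B) := by
  obtain ⟨φ, hφ, h1, h2, h3, h4, θ, hθ, h5, h6, h7⟩ := hA
  obtain ⟨ψ, hψ, k1, k2, k3, k4, η, hη, k5, k6, k7⟩ := hB
  refine ⟨fun q => φ q + ψ q, hφ.add hψ, ?_, ?_, ?_, ?_, fun q => θ q + η q, hθ.add hη, ?_, ?_, ?_⟩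
  · rintro p (hp | hp)
    · show φ p + ψ p = 1
      rw [h1 p hp, k2 p (hA' p hp) (Set.disjoint_left.1 hd hp), add_zero]
    · show φ p + ψ p = 1
      rw [k1 p hp, h2 p (hB' p hp) (Set.disjoint_right.1 hd hp), zero_add]
  · intro p hp hpn
    show φ p + ψ p = 0
    rw [h2 p hp (fun h => hpn (Or.inl h)), k2 p hp (fun h => hpn (Or.inr h)), add_zero]
  · intro p hp
    show φ p + ψ p = 0
    rw [h3 p hp, k3 p hp, add_zero]
  · intro p hp
    show φ p + ψ p = 0
    rw [h4 p hp, k4 p hp, add_zero]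
  · intro t x
    show ((θ (t, x) + η (t, x) : ℝ) : AddCircle (1 : ℝ)) = _
    rw [AddCircle.coe_add, h5, k5, circ_add]
  · intro x
    show θ (0, x) + η (0, x) = 0
    rw [h6, k6, add_zero]
  · intro x
    show θ (1, x) + η (1, x) = 0
    rw [h7, k7, add_zero]

lemma nullPart_of_miss [PreconnectedSpace X] {u : X × ℝ → ℝ} (hu : Continuous u) {a b : ℝ}
    (h0 : ∀ p : X × ℝ, p.2 ≤ a → u p = 0) (h1 : ∀ p : X × ℝ, b ≤ p.2 → u p = 1)
    {B D : Set (X × ℝ)} (hB : IsClosed B) (hD : IsClosed D) (hBD : Disjoint B D)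
    (hE : B ∪ D = {p | u p = 1 / 2}) {x₀ : X} (hx₀ : ∀ p ∈ B, p.1 ≠ x₀) :
    NullPart u a b B := by
  classical
  have hBE : ∀ p ∈ B, u p = 1 / 2 := fun p hp => by
    have : p ∈ B ∪ D := Or.inl hp
    rw [hE] at this; exact this
  set Z : Set (X × ℝ) := D ∪ ({p | p.1 = x₀} ∪ ({p | p.2 ≤ a} ∪ {p | b ≤ p.2})) with hZ
  have hZc : IsClosed Z := by
    refine hD.union (IsClosed.union ?_ (IsClosed.union ?_ ?_))
    · exact isClosed_eq continuous_fst continuous_const
    · exact isClosed_le continuous_snd continuous_const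
    · exact isClosed_le continuous_const continuous_snd
  have hZB : Disjoint Z B := by
    rw [Set.disjoint_left]
    rintro p (hp | hp | hp | hp) hpB
    · exact Set.disjoint_left.1 hBD hpB hp
    · exact hx₀ p hpB hp
    · have := hBE p hpB
      rw [h0 p hp] at this; norm_num at this
    · have := hBE p hpB
      rw [h1 p hp] at this; norm_num at this
  obtain ⟨φ, hφ0, hφ1, hφI⟩ := exists_continuous_zero_one_of_isClosed hZc hB hZB
  have hval : ∀ p, u p = 1 / 2 → φ p = 0 ∨ φ p = 1 := by
    intro p hp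
    have : p ∈ B ∪ D := by rw [hE]; exact hp
    rcases this with h | h
    · right; exact hφ1 h
    · left; exact hφ0 (Or.inl h)
  have hcont := continuous_circ hu φ.continuous hval
  -- the map to the circle
  let H : C(unitInterval × X, AddCircle (1 : ℝ)) :=
    ⟨fun q => circ u φ (q.2, a + q.1 * (b - a)), hcont.comp (by fun_prop)⟩
  have cov := AddCircle.isCoveringMap_coe (1 : ℝ)
  have hcirc_a : ∀ x, circ u φ (x, a) = 0 := by
    intro x
    have h3 : φ (x, a) = 0 := hφ0 (Or.inr (Or.inr (Or.inl (le_refl a))))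
    unfold circ
    rw [h3]
    split_ifs <;> simp
  have hcirc_b : ∀ x, circ u φ (x, b) = 0 := by
    intro x
    have h3 : φ (x, b) = 0 := hφ0 (Or.inr (Or.inr (Or.inr (le_refl b))))
    unfold circ
    rw [h3]
    split_ifs <;> simp
  have hcirc_x : ∀ s, circ u φ (x₀, s) = 0 := by
    intro s
    have h3 : φ (x₀, s) = 0 := hφ0 (Or.inr (Or.inl rfl))
    unfold circ
    rw [h3]
    split_ifs <;> simp
  have H0 : ∀ x : X, H (0, x) = ((0 : ℝ) : AddCircle (1 : ℝ)) := by
    intro x
    show circ u φ (x, a + ((0 : unitInterval) : ℝ) * (b - a)) = _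
    simp only [Set.Icc.coe_zero, zero_mul, add_zero, AddCircle.coe_zero]
    exact hcirc_a x
  obtain ⟨θ, hθl, hθ0⟩ : ∃ θ : C(unitInterval × X, ℝ), (∀ (t : unitInterval) (x : X),
      ((θ (t, x) : ℝ) : AddCircle (1 : ℝ)) = circ u φ (x, a + t * (b - a))) ∧
      ∀ x, θ (0, x) = 0 := by
    refine ⟨cov.liftHomotopy H (ContinuousMap.const X 0) H0, ?_, ?_⟩
    · intro t x
      exact congrFun (cov.liftHomotopy_lifts H (ContinuousMap.const X 0) H0) (t, x)
    · intro x
      exact cov.liftHomotopy_zero H (ContinuousMap.const X 0) H0 x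
  have hθx : θ (1, x₀) = 0 := by
    have := cov.const_of_comp (A := unitInterval) (g := fun t => θ (t, x₀)) (by fun_prop) (by
      intro t t'
      rw [hθl, hθl, hcirc_x, hcirc_x]) 1 0
    simpa [hθ0] using this
  have hθ1 : ∀ x, θ (1, x) = 0 := by
    intro x
    have := cov.const_of_comp (A := X) (g := fun x => θ (1, x)) (by fun_prop) (by
      intro y y'
      rw [hθl, hθl]
      simp only [Set.Icc.coe_one, one_mul]
      have : a + (b - a) = b := by ring
      rw [this, hcirc_b, hcirc_b]) x x₀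
    simpa [hθx] using this
  refine ⟨φ, φ.continuous, fun p hp => hφ1 hp, ?_, ?_, ?_, θ, θ.continuous, hθl, hθ0, hθ1⟩
  · intro p hp hpB
    have : p ∈ B ∪ D := by rw [hE]; exact hp
    rcases this with h | h
    · exact absurd h hpB
    · exact hφ0 (Or.inl h)
  · intro p hp
    exact hφ0 (Or.inr (Or.inr (Or.inl hp.le)))
  · intro p hp
    exact hφ0 (Or.inr (Or.inr (Or.inr hp.ge)))

lemma not_nullPart_all [Nonempty X] {u : X × ℝ → ℝ} (hu : Continuous u) {a b : ℝ}
    (h0 : ∀ p : X × ℝ, p.2 ≤ a → u p = 0) (h1 : ∀ p : X × ℝ, b ≤ p.2 → u p = 1) :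
    ¬ NullPart u a b {p | u p = 1 / 2} := by
  rintro ⟨φ, hφ, k1, -, k3, k4, θ, hθ, k5, k6, k7⟩
  obtain ⟨x⟩ := ‹Nonempty X›
  -- real valued lift
  let G : X × ℝ → ℝ := fun p => if u p ≤ 1 / 2 then φ p / 2 else 1 - φ p / 2
  have hG : Continuous G := by
    refine Continuous.if_le (hφ.div_const 2) (continuous_const.sub (hφ.div_const 2)) hu
      continuous_const ?_
    intro p hp
    rw [k1 p hp]; norm_num
  have hGc : ∀ p, ((G p : ℝ) : AddCircle (1 : ℝ)) = circ u φ p := by
    intro p
    show (((if u p ≤ 1 / 2 then φ p / 2 else 1 - φ p / 2 : ℝ)) : AddCircle (1 : ℝ)) = _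
    unfold circ
    split_ifs
    · rfl
    · have : (1 - φ p / 2 : ℝ) = (-φ p / 2) + 1 := by ring
      rw [this, AddCircle.coe_add, AddCircle.coe_period, add_zero]
  have cov := AddCircle.isCoveringMap_coe (1 : ℝ)
  have key := cov.eq_of_comp_eq (A := unitInterval) (g₁ := fun t => θ (t, x))
    (g₂ := fun t => G (x, a + t * (b - a))) (by fun_prop) (hG.comp (by fun_prop)) (by
      funext t
      simp only [Function.comp]
      rw [k5, hGc]) 0 (by
      simp only [k6, Set.Icc.coe_zero, zero_mul, add_zero]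
      show 0 = if u (x, a) ≤ 1 / 2 then φ (x, a) / 2 else 1 - φ (x, a) / 2
      rw [h0 (x, a) le_rfl, k3 (x, a) rfl]
      norm_num)
  have := congrFun key 1
  simp only [k7, Set.Icc.coe_one, one_mul] at this
  have hb : a + (b - a) = b := by ring
  rw [hb] at this
  have hGb : G (x, b) = 1 := by
    show (if u (x, b) ≤ 1 / 2 then φ (x, b) / 2 else 1 - φ (x, b) / 2) = 1
    rw [h1 (x, b) le_rfl, k4 (x, b) rfl]
    norm_num
  rw [hGb] at this
  norm_num at this

/-- [S] -/
theorem exists_level_continuum [CompactSpace X] [ConnectedSpace X]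
    {u : X × ℝ → ℝ} (hu : Continuous u) {a b : ℝ} (_hab : a < b)
    (h0 : ∀ p : X × ℝ, p.2 ≤ a → u p = 0) (h1 : ∀ p : X × ℝ, b ≤ p.2 → u p = 1) :
    ∃ C : Set (X × ℝ), IsClosed C ∧ IsConnected C ∧ (∀ p ∈ C, u p = 1 / 2) ∧
      Prod.fst '' C = univ := by
  classical
  by_contra hcon
  push Not at hcon
  set E : Set (X × ℝ) := {p | u p = 1 / 2} with hEdef
  have hEc : IsClosed E := isClosed_eq hu continuous_const
  have hEK : IsCompact E := by
    refine (isCompact_univ.prod (isCompact_Icc (a := a) (b := b))).of_isClosed_subset hEc ?_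
    intro p hp
    refine ⟨mem_univ _, ?_, ?_⟩
    · by_contra hlt
      push Not at hlt
      have := h0 p hlt.le
      rw [show u p = 1 / 2 from hp] at this; norm_num at this
    · by_contra hlt
      push Not at hlt
      have := h1 p hlt.le
      rw [show u p = 1 / 2 from hp] at this; norm_num at this
  -- predicate for the compact induction
  let P : Set (X × ℝ) → Prop := fun S => ∃ A D : Set (X × ℝ), IsClosed A ∧ IsClosed D ∧
    Disjoint A D ∧ A ∪ D = E ∧ S ⊆ A ∧
    ∀ B F : Set (X × ℝ), IsClosed B → IsClosed F → Disjoint B F → B ∪ F = E → B ⊆ A →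
      NullPart u a b B
  have hP : P E := by
    refine hEK.induction_on (p := P) ?_ ?_ ?_ ?_
    · refine ⟨∅, E, isClosed_empty, hEc, by simp, by simp, subset_rfl, ?_⟩
      intro B F hB hF hBF hBFE hBA
      obtain ⟨x₀⟩ : Nonempty X := inferInstance
      exact nullPart_of_miss hu h0 h1 hB hF hBF hBFE (x₀ := x₀) (fun p hp => absurd (hBA hp) (by simp))
    · rintro s t hst ⟨A, D, hA, hD, hAD, hADE, htA, h⟩
      exact ⟨A, D, hA, hD, hAD, hADE, hst.trans htA, h⟩
    · rintro s t ⟨A, D, hA, hD, hAD, hADE, hsA, h⟩ ⟨A', D', hA', hD', hAD', hADE', htA', h'⟩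
      refine ⟨A ∪ A', D ∩ D', hA.union hA', hD.inter hD', ?_, ?_, ?_, ?_⟩
      · rw [Set.disjoint_left]
        rintro p (hp | hp) ⟨hp1, hp2⟩
        · exact Set.disjoint_left.1 hAD hp hp1
        · exact Set.disjoint_left.1 hAD' hp hp2
      · ext p
        constructor
        · rintro ((hp | hp) | ⟨hp1, hp2⟩)
          · rw [← hADE]; exact Or.inl hp
          · rw [← hADE']; exact Or.inl hp
          · rw [← hADE]; exact Or.inr hp1
        · intro hp
          have hp1 : p ∈ A ∪ D := by rw [hADE]; exact hp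
          have hp2 : p ∈ A' ∪ D' := by rw [hADE']; exact hp
          rcases hp1 with hp1 | hp1
          · exact Or.inl (Or.inl hp1)
          · rcases hp2 with hp2 | hp2
            · exact Or.inl (Or.inr hp2)
            · exact Or.inr ⟨hp1, hp2⟩
      · exact union_subset_union hsA htA'
      · intro B F hB hF hBF hBFE hBA
        have hBE : B ⊆ E := by rw [← hBFE]; exact subset_union_left
        have hAE : A ⊆ E := by rw [← hADE]; exact subset_union_left
        have e1 : B = (B ∩ A) ∪ (B ∩ D) := by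
          rw [← inter_union_distrib_left, hADE]
          exact (inter_eq_left.2 hBE).symm
        rw [e1]
        refine NullPart.union ?_ ?_ ?_ ?_ ?_
        · refine h (B ∩ A) (F ∪ (B ∩ D)) (hB.inter hA) (hF.union (hB.inter hD)) ?_ ?_
            inter_subset_right
          · rw [Set.disjoint_left]
            rintro p ⟨hp1, hp2⟩ (hp3 | ⟨hp3, hp4⟩)
            · exact Set.disjoint_left.1 hBF hp1 hp3
            · exact Set.disjoint_left.1 hAD hp2 hp4
          · rw [← hBFE]
            conv_rhs => rw [e1]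
            ext p; simp only [mem_union, mem_inter_iff]; tauto
        · refine h' (B ∩ D) (F ∪ (B ∩ A)) (hB.inter hD) (hF.union (hB.inter hA)) ?_ ?_ ?_
          · rw [Set.disjoint_left]
            rintro p ⟨hp1, hp2⟩ (hp3 | ⟨hp3, hp4⟩)
            · exact Set.disjoint_left.1 hBF hp1 hp3
            · exact Set.disjoint_left.1 hAD hp4 hp2
          · rw [← hBFE]
            conv_rhs => rw [e1]
            ext p; simp only [mem_union, mem_inter_iff]; tauto
          · rintro p ⟨hp1, hp2⟩
            rcases hBA hp1 with hp3 | hp3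
            · exact absurd hp2 (Set.disjoint_left.1 hAD hp3)
            · exact hp3
        · rw [Set.disjoint_left]
          rintro p ⟨_, hp2⟩ ⟨_, hp4⟩
          exact Set.disjoint_left.1 hAD hp2 hp4
        · intro p hp; exact hBE hp.1
        · intro p hp; exact hBE hp.1
    · intro c hc
      -- the component of `c` in `E`
      have hKconn : IsConnected (connectedComponentIn E c) :=
        isConnected_connectedComponentIn_iff.2 hc
      have hKE : connectedComponentIn E c ⊆ E := connectedComponentIn_subset E c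
      have hK : IsClosed (connectedComponentIn E c) :=
        isClosed_of_closure_subset
          (hKconn.isPreconnected.closure.subset_connectedComponentIn
            (subset_closure (mem_connectedComponentIn hc)) (closure_minimal hKE hEc))
      have hKne := hcon _ hK hKconn (fun p hp => hKE hp)
      obtain ⟨x₀, hx₀⟩ : ∃ x₀, x₀ ∉ Prod.fst '' connectedComponentIn E c := by
        by_contra hall
        push Not at hall
        exact hKne (eq_univ_of_forall hall)
      obtain ⟨S₁, S₂, hS₁, hS₂, hd, hU, hcS, hfS⟩ := exists_separation (S := E) (P := {c})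
        (Q := E ∩ {p | p.1 = x₀}) hEK isClosed_singleton
        (hEc.inter (isClosed_eq continuous_fst continuous_const)) (by simpa using hc)
        inter_subset_left (by
          rintro C hC hCc hCE ⟨p, hpC, hp⟩ ⟨q, hqC, hqE, hq⟩
          rw [mem_singleton_iff] at hp
          subst hp
          have := hCc.isPreconnected.subset_connectedComponentIn hpC hCE hqC
          exact hx₀ ⟨q, this, hq⟩)
      have hcS₁ : c ∈ S₁ := hcS rfl
      refine ⟨S₁, ?_, S₁, S₂, hS₁, hS₂, hd, hU, subset_rfl, ?_⟩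
      · rw [mem_nhdsWithin]
        refine ⟨S₂ᶜ, hS₂.isOpen_compl, fun h => Set.disjoint_left.1 hd hcS₁ h, ?_⟩
        rintro p ⟨hp1, hp2⟩
        have : p ∈ S₁ ∪ S₂ := by rw [hU]; exact hp2
        rcases this with h | h
        · exact h
        · exact absurd h hp1
      · intro B F hB hF hBF hBFE hBA
        refine nullPart_of_miss hu h0 h1 hB hF hBF hBFE (x₀ := x₀) ?_
        intro p hp hpx
        have hpE : p ∈ E := by rw [← hBFE]; exact Or.inl hp
        exact Set.disjoint_left.1 hd (hBA hp) (hfS ⟨hpE, hpx⟩)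
  obtain ⟨A, D, hA, hD, hAD, hADE, hEA, h⟩ := hP
  have hE := h E ∅ hEc isClosed_empty (by simp) (by simp) hEA
  exact not_nullPart_all hu h0 h1 hE

end Level

end Pool.Agent.MP_a56558_gt
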