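import Pool.Agent.MP_a56558_gt.Defs

set_option autoImplicit false

namespace Pool.Agent.MP_a56558_gt

open Set Filter Topology

/-! ### Block T (topology) -/

/-- two disjoint closed sets covering a preconnected set: one of them misses it -/
theorem not_split {α : Type*} [TopologicalSpace α] {A F G : Set α} (hA : IsPreconnected A)
    (hF : IsClosed F) (hG : IsClosed G) (hcov : A ⊆ F ∪ G) (hd : ∀ x ∈ A, x ∈ F → x ∈ G → False)
    (hAF : (A ∩ F).Nonempty) (hAG : (A ∩ G).Nonempty) : False := by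
  obtain ⟨x, hxA, hxF, hxG⟩ := isPreconnected_closed_iff.1 hA F G hF hG hcov hAF hAG
  exact hd x hxA hxF hxG

/-- [T1] -/
theorem exists_separation {α : Type*} [TopologicalSpace α] [T2Space α] {S P Q : Set α}
    (hS : IsCompact S) (hP : IsClosed P) (hQ : IsClosed Q) (hPS : P ⊆ S) (hQS : Q ⊆ S)
    (h : ∀ C : Set α, IsClosed C → IsConnected C → C ⊆ S → (C ∩ P).Nonempty → (C ∩ Q).Nonempty → False) :
    ∃ S₁ S₂ : Set α, IsClosed S₁ ∧ IsClosed S₂ ∧ Disjoint S₁ S₂ ∧ S₁ ∪ S₂ = S ∧ P ⊆ S₁ ∧ Q ⊆ S₂ := by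
  have : CompactSpace S := isCompact_iff_compactSpace.1 hS
  set P' : Set S := Subtype.val ⁻¹' P with hP'
  set Q' : Set S := Subtype.val ⁻¹' Q with hQ'
  have hP'c : IsClosed P' := hP.preimage continuous_subtype_val
  have hQ'c : IsClosed Q' := hQ.preimage continuous_subtype_val
  have key : ∀ p : S, p ∈ P' → ∃ s : Set S, IsClopen s ∧ p ∈ s ∧ Q' ∩ s = ∅ := by
    intro p hp
    have h1 : Q' ∩ ⋂ s : { s : Set S // IsClopen s ∧ p ∈ s }, (s : Set S) = ∅ := by
      rw [← connectedComponent_eq_iInter_isClopen, ← not_nonempty_iff_eq_empty]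
      rintro ⟨q, hqQ, hqc⟩
      refine h (Subtype.val '' connectedComponent p) ?_ ?_ ?_ ?_ ?_
      · exact (isClosed_connectedComponent.isCompact.image continuous_subtype_val).isClosed
      · exact isConnected_connectedComponent.image _ continuous_subtype_val.continuousOn
      · rintro _ ⟨y, _, rfl⟩
        exact y.2
      · exact ⟨p, ⟨p, mem_connectedComponent, rfl⟩, hp⟩
      · exact ⟨q, ⟨q, hqc, rfl⟩, hqQ⟩
    have : Nonempty { s : Set S // IsClopen s ∧ p ∈ s } := ⟨⟨univ, isClopen_univ, mem_univ _⟩⟩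
    obtain ⟨s, hs⟩ := hQ'c.isCompact.elim_directed_family_closed
      (fun s : { s : Set S // IsClopen s ∧ p ∈ s } => (s : Set S)) (fun s => s.2.1.1) h1
      (fun s t => ⟨⟨s.1 ∩ t.1, s.2.1.inter t.2.1, s.2.2, t.2.2⟩, inter_subset_left,
        inter_subset_right⟩)
    exact ⟨s, s.2.1, s.2.2, hs⟩
  choose! f hf1 hf2 hf3 using key
  obtain ⟨t, ht, htP⟩ := hP'c.isCompact.elim_nhds_subcover f
    (fun p hp => (hf1 p hp).2.mem_nhds (hf2 p hp))
  set U : Set S := ⋃ p ∈ t, f p with hU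
  have hUc : IsClopen U := t.finite_toSet.isClopen_biUnion (fun p hp => hf1 p (ht p hp))
  refine ⟨Subtype.val '' U, Subtype.val '' Uᶜ, ?_, ?_, ?_, ?_, ?_, ?_⟩
  · exact (hUc.1.isCompact.image continuous_subtype_val).isClosed
  · exact (hUc.compl.1.isCompact.image continuous_subtype_val).isClosed
  · rw [Set.disjoint_left]
    rintro _ ⟨y, hy, rfl⟩ ⟨z, hz, hzy⟩
    rw [Subtype.val_injective hzy] at hz
    exact hz hy
  · rw [← image_union, union_compl_self, image_univ, Subtype.range_coe]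
  · intro p hp
    exact ⟨⟨p, hPS hp⟩, htP hp, rfl⟩
  · intro q hq
    refine ⟨⟨q, hQS hq⟩, ?_, rfl⟩
    intro hqU
    simp only [hU, mem_iUnion] at hqU
    obtain ⟨p, hpt, hqp⟩ := hqU
    have h2 : (⟨q, hQS hq⟩ : S) ∈ Q' ∩ f p := ⟨hq, hqp⟩
    rw [hf3 p (ht p hpt)] at h2
    exact h2

/-- [T2] boundary bumping -/
theorem exists_bump {α : Type*} [TopologicalSpace α] [CompactSpace α] [T2Space α] {C A U : Set α}
    (hC : IsClosed C) (hCc : IsConnected C) (hA : IsClosed A) (hAc : IsConnected A)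
    (hCA : C ⊆ A) (hne : C ≠ A) (hU : IsOpen U) (hCU : C ⊆ U) :
    ∃ C' : Set α, IsClosed C' ∧ IsConnected C' ∧ C ⊆ C' ∧ C ≠ C' ∧ C' ⊆ A ∧ C' ⊆ U := by
  obtain ⟨a, haA, haC⟩ : ∃ a ∈ A, a ∉ C := by
    by_contra h
    push Not at h
    exact hne (Subset.antisymm hCA h)
  obtain ⟨V, hVo, hCV, hVU⟩ := normal_exists_closure_subset hC
    (hU.inter (isOpen_compl_singleton (x := a)))
    (fun x hx => ⟨hCU hx, fun hxa => haC (by rw [mem_singleton_iff] at hxa; rwa [← hxa])⟩)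
  have haV : a ∉ closure V := fun h => (hVU h).2 rfl
  have hfr : ∀ x, x ∈ frontier V → x ∉ V := fun x hx hxV => by
    rw [hVo.frontier_eq] at hx
    exact hx.2 hxV
  by_cases h : ∃ D : Set α, IsClosed D ∧ IsConnected D ∧ D ⊆ A ∩ closure V ∧ (D ∩ C).Nonempty ∧
      (D ∩ (A ∩ frontier V)).Nonempty
  · obtain ⟨D, hD, hDc, hDS, ⟨x, hxD, hxC⟩, y, hyD, _, hyV⟩ := h
    refine ⟨C ∪ D, hC.union hD, ?_, subset_union_left, ?_, ?_, ?_⟩
    · exact hCc.union ⟨x, hxC, hxD⟩ hDc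
    · intro he
      have : y ∈ C := by rw [he]; exact Or.inr hyD
      exact hfr y hyV (hCV this)
    · exact union_subset hCA (fun z hz => (hDS hz).1)
    · exact union_subset hCU (fun z hz => (hVU (hDS hz).2).1)
  · exfalso
    obtain ⟨S₁, S₂, h1, h2, h3, h4, h5, h6⟩ := exists_separation
      (S := A ∩ closure V) (P := C) (Q := A ∩ frontier V)
      (hA.inter isClosed_closure).isCompact hC (hA.inter isClosed_frontier)
      (fun x hx => ⟨hCA hx, subset_closure (hCV hx)⟩)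
      (fun x hx => ⟨hx.1, frontier_subset_closure hx.2⟩)
      (fun D a1 a2 a3 a4 a5 => h ⟨D, a1, a2, a3, a4, a5⟩)
    refine not_split hAc.isPreconnected h1 (h2.union (hA.inter hVo.isClosed_compl)) ?_ ?_ ?_ ?_
    · intro x hx
      by_cases hxV : x ∈ closure V
      · have : x ∈ S₁ ∪ S₂ := by rw [h4]; exact ⟨hx, hxV⟩
        rcases this with h7 | h7
        · exact Or.inl h7
        · exact Or.inr (Or.inl h7)
      · exact Or.inr (Or.inr ⟨hx, fun h8 => hxV (subset_closure h8)⟩)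
    · intro x hxA hx1 hx2
      rcases hx2 with hx2 | hx2
      · exact Set.disjoint_left.1 h3 hx1 hx2
      · have h7 : x ∈ A ∩ closure V := by rw [← h4]; exact Or.inl hx1
        have h8 : x ∈ frontier V := by
          rw [hVo.frontier_eq]
          exact ⟨h7.2, hx2.2⟩
        exact Set.disjoint_left.1 h3 hx1 (h6 ⟨hxA, h8⟩)
    · obtain ⟨x, hx⟩ := hCc.nonempty
      exact ⟨x, hCA hx, h5 hx⟩
    · exact ⟨a, haA, Or.inr ⟨haA, fun h7 => haV (subset_closure h7)⟩⟩

/-- [T3] maps to hereditarily indecomposable continua are confluent -/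
theorem exists_lift_component {X Y : Type*} [TopologicalSpace X] [CompactSpace X] [T2Space X]
    [TopologicalSpace Y] [T2Space Y] (hY : HI Y) {f : X → Y} (hf : Continuous f)
    {A : Set X} (hA : IsClosed A) (hAc : IsConnected A) {L : Set Y} (hL : IsClosed L)
    (hLc : IsConnected L) (hLA : L ⊆ f '' A) {a : X} (ha : a ∈ A) (hfa : f a ∈ L) :
    IsClosed (connectedComponentIn (A ∩ f ⁻¹' L) a) ∧
    f '' connectedComponentIn (A ∩ f ⁻¹' L) a = L := by
  set D := connectedComponentIn (A ∩ f ⁻¹' L) a with hD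
  have haF : a ∈ A ∩ f ⁻¹' L := ⟨ha, hfa⟩
  have hFc : IsClosed (A ∩ f ⁻¹' L) := hA.inter (hL.preimage hf)
  have haD : a ∈ D := mem_connectedComponentIn haF
  have hDp : IsPreconnected D := isPreconnected_connectedComponentIn
  have hDF : D ⊆ A ∩ f ⁻¹' L := connectedComponentIn_subset _ _
  have hDcl : closure D ⊆ D :=
    hDp.closure.subset_connectedComponentIn (subset_closure haD) (closure_minimal hDF hFc)
  have hDc : IsClosed D := closure_subset_iff_isClosed.1 hDcl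
  have hDconn : IsConnected D := ⟨⟨a, haD⟩, hDp⟩
  refine ⟨hDc, Subset.antisymm ?_ ?_⟩
  · rintro _ ⟨x, hx, rfl⟩
    exact (hDF hx).2
  · intro l hl
    by_contra hlD
    have hneA : D ≠ A := by
      intro he
      rw [he] at hlD
      exact hlD (hLA hl)
    obtain ⟨C', h1, h2, h3, h4, h5, h6⟩ := exists_bump hDc hDconn hA hAc
      (fun x hx => (hDF hx).1) hneA
      ((isOpen_compl_singleton (x := l)).preimage hf)
      (fun x hx => fun hxl => hlD ⟨x, hx, hxl⟩)
    have h7 : IsClosed (f '' C') := (h1.isCompact.image hf).isClosed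
    have h8 : IsConnected (f '' C') := h2.image _ hf.continuousOn
    rcases hY (f '' C') L h7 h8 hL hLc ⟨f a, ⟨a, h3 haD, rfl⟩, hfa⟩ with h9 | h9
    · have h10 : C' ⊆ D := h2.isPreconnected.subset_connectedComponentIn (h3 haD)
        (fun x hx => ⟨h5 hx, h9 ⟨x, hx, rfl⟩⟩)
      exact h4 (Subset.antisymm h3 h10)
    · obtain ⟨x, hx, hxl⟩ := h9 hl
      exact h6 hx hxl

/-- [T4] -/
theorem exists_dense_chain {α : Type*} [TopologicalSpace α] [CompactSpace α] [T2Space α]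
    {Z : Set α} (hZ : IsClosed Z) (hZc : IsConnected Z) {z : α} (hz : z ∈ Z) (hne : Z ≠ {z}) :
    ∃ 𝒞 : Set (Set α), IsChain (· ⊆ ·) 𝒞 ∧ 𝒞.Nonempty ∧
      (∀ K ∈ 𝒞, IsClosed K ∧ IsConnected K ∧ K ⊆ Z ∧ K ≠ Z ∧ z ∈ K) ∧ closure (⋃₀ 𝒞) = Z := by
  set T := {K : Set α // IsClosed K ∧ IsConnected K ∧ K ⊆ Z ∧ K ≠ Z ∧ z ∈ K} with hT
  set r : T → T → Prop := fun K L => K.1 ⊆ L.1 with hr
  obtain ⟨hM1, hM2⟩ := maxChain_spec (r := r)
  set M := maxChain r with hM
  -- anything comparable with all members of the maximal chain belongs to it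
  have hins : ∀ K : T, (∀ L ∈ M, r L K) → K ∈ M := by
    intro K hK
    have h1 : IsChain r (insert K M) := hM1.insert (fun L hL _ => Or.inr (hK L hL))
    have h2 := hM2 h1 (subset_insert K M)
    rw [h2]
    exact mem_insert K M
  have hz0 : ∃ K : T, K ∈ M := by
    by_contra h
    push Not at h
    exact h ⟨{z}, isClosed_singleton, isConnected_singleton, singleton_subset_iff.2 hz, hne.symm,
      rfl⟩ (hins _ (fun L hL => absurd hL (h L)))
  refine ⟨Subtype.val '' M, ?_, ?_, ?_, ?_⟩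
  · rintro _ ⟨K, hK, rfl⟩ _ ⟨L, hL, rfl⟩ hKL
    exact hM1 hK hL (fun h => hKL (by rw [h]))
  · obtain ⟨K, hK⟩ := hz0
    exact ⟨K, K, hK, rfl⟩
  · rintro _ ⟨K, _, rfl⟩
    exact K.2
  · set D := closure (⋃₀ (Subtype.val '' M)) with hD
    have hDsub : ∀ K ∈ M, K.1 ⊆ D := fun K hK x hx =>
      subset_closure ⟨K.1, ⟨K, hK, rfl⟩, hx⟩
    have hDZ : D ⊆ Z := by
      refine closure_minimal ?_ hZ
      rintro x ⟨_, ⟨K, _, rfl⟩, hx⟩
      exact K.2.2.2.1 hx
    have hzD : z ∈ D := by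
      obtain ⟨K, hK⟩ := hz0
      exact hDsub K hK K.2.2.2.2.2
    have hDconn : IsConnected D := by
      refine ⟨⟨z, hzD⟩, IsPreconnected.closure ?_⟩
      refine isPreconnected_sUnion z _ ?_ ?_
      · rintro _ ⟨K, _, rfl⟩
        exact K.2.2.2.2.2
      · rintro _ ⟨K, _, rfl⟩
        exact K.2.2.1.isPreconnected
    by_contra hDne
    have hDM : (⟨D, isClosed_closure, hDconn, hDZ, hDne, hzD⟩ : T) ∈ M := hins _ hDsub
    obtain ⟨z0, hz0Z, hz0D⟩ : ∃ z0 ∈ Z, z0 ∉ D := by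
      by_contra h
      push Not at h
      exact hDne (Subset.antisymm hDZ h)
    obtain ⟨C', h1, h2, h3, h4, h5, h6⟩ := exists_bump isClosed_closure hDconn hZ hZc hDZ hDne
      (isOpen_compl_singleton (x := z0))
      (fun x hx hxz => hz0D (by rw [mem_singleton_iff] at hxz; rwa [← hxz]))
    have hC'ne : C' ≠ Z := by
      intro he
      rw [← he] at hz0Z
      exact h6 hz0Z rfl
    have hC'M : (⟨C', h1, h2, h5, hC'ne, h3 hzD⟩ : T) ∈ M :=
      hins _ (fun L hL => (hDsub L hL).trans h3)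
    exact h4 (Subset.antisymm h3 (hDsub _ hC'M))

/-- [T5] nested intersections -/
theorem isConnected_sInter_chain {α : Type*} [TopologicalSpace α] [CompactSpace α] [T2Space α]
    {𝒞 : Set (Set α)} (hne : 𝒞.Nonempty) (hch : IsChain (· ⊆ ·) 𝒞)
    (h : ∀ K ∈ 𝒞, IsClosed K ∧ IsConnected K) : IsClosed (⋂₀ 𝒞) ∧ IsConnected (⋂₀ 𝒞) := by
  have hcl : IsClosed (⋂₀ 𝒞) := isClosed_sInter fun K hK => (h K hK).1
  have : Nonempty 𝒞 := hne.to_subtype
  have hdir : Directed (· ⊇ ·) (fun K : 𝒞 => (K : Set α)) := by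
    intro K L
    rcases hch.total K.2 L.2 with h1 | h1
    · exact ⟨K, subset_rfl, h1⟩
    · exact ⟨L, h1, subset_rfl⟩
  have hInter : ⋂₀ 𝒞 = ⋂ K : 𝒞, (K : Set α) := sInter_eq_iInter
  refine ⟨hcl, ?_, ?_⟩
  · rw [hInter]
    exact IsCompact.nonempty_iInter_of_directed_nonempty_isCompact_isClosed _ hdir
      (fun K => (h K K.2).2.nonempty) (fun K => (h K K.2).1.isCompact) (fun K => (h K K.2).1)
  · rw [isPreconnected_closed_iff]
    intro t t' ht ht' hcov hn hn'
    by_contra hcon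
    rw [not_nonempty_iff_eq_empty] at hcon
    -- separate the two pieces
    set F := ⋂₀ 𝒞 ∩ t with hF
    set G := ⋂₀ 𝒞 ∩ t' with hG
    have hFc : IsClosed F := hcl.inter ht
    have hGc : IsClosed G := hcl.inter ht'
    have hFG : Disjoint F G := by
      rw [Set.disjoint_left]
      intro x hx hx'
      have : x ∈ ⋂₀ 𝒞 ∩ (t ∩ t') := ⟨hx.1, hx.2, hx'.2⟩
      rw [hcon] at this
      exact this
    obtain ⟨V, W, hV, hW, hFV, hGW, hVW⟩ := normal_separation hFc hGc hFG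
    obtain ⟨K, hK⟩ := exists_subset_nhds_of_isCompact (V := fun K : 𝒞 => (K : Set α)) hdir
      (fun K => (h K K.2).1.isCompact) (U := V ∪ W) (fun x hx => by
        rw [← hInter] at hx
        rcases hcov hx with h1 | h1
        · exact mem_of_superset (hV.mem_nhds (hFV ⟨hx, h1⟩)) subset_union_left
        · exact mem_of_superset (hW.mem_nhds (hGW ⟨hx, h1⟩)) subset_union_right)
    obtain ⟨x, hx⟩ := hn
    obtain ⟨y, hy⟩ := hn'
    obtain ⟨w, _, hwV, hwW⟩ := (h K K.2).2.isPreconnected V W hV hW hK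
      ⟨x, hx.1 K K.2, hFV hx⟩ ⟨y, hy.1 K K.2, hGW hy⟩
    exact Set.disjoint_left.1 hVW hwV hwW

/-- [T6] restriction of a crossing continuum -/
theorem exists_crossing_sub {X : Type*} [MetricSpace X] [CompactSpace X] {C : Set (X × ℝ)}
    (hC : IsClosed C) (hCc : IsConnected C) {a b : ℝ} (hab : a < b)
    (ha : ∃ p ∈ C, p.2 ≤ a) (hb : ∃ p ∈ C, b ≤ p.2) :
    ∃ D : Set (X × ℝ), Crosses D C a b := by
  have hle : ∀ c : ℝ, IsClosed {p : X × ℝ | p.2 ≤ c} := fun c =>
    isClosed_le continuous_snd continuous_const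
  have hge : ∀ c : ℝ, IsClosed {p : X × ℝ | c ≤ p.2} := fun c =>
    isClosed_le continuous_const continuous_snd
  have heq : ∀ c : ℝ, IsClosed {p : X × ℝ | p.2 = c} := fun c =>
    isClosed_eq continuous_snd continuous_const
  set S : Set (X × ℝ) := C ∩ (univ ×ˢ Icc a b) with hS
  have hSc : IsCompact S := (isCompact_univ.prod isCompact_Icc).inter_left hC
  by_cases h : ∃ D : Set (X × ℝ), IsClosed D ∧ IsConnected D ∧ D ⊆ S ∧
      (D ∩ (S ∩ {p | p.2 = a})).Nonempty ∧ (D ∩ (S ∩ {p | p.2 = b})).Nonempty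
  · obtain ⟨D, h1, h2, h3, ⟨x, hx, hx'⟩, y, hy, hy'⟩ := h
    exact ⟨D, h1, h2, fun p hp => (h3 hp).1, fun p hp => (h3 hp).2.2, ⟨x, hx, hx'.2⟩,
      ⟨y, hy, hy'.2⟩⟩
  · exfalso
    obtain ⟨S₁, S₂, h1, h2, h3, h4, h5, h6⟩ := exists_separation
      (S := S) (P := S ∩ {p | p.2 = a}) (Q := S ∩ {p | p.2 = b}) hSc
      (hSc.isClosed.inter (heq a)) (hSc.isClosed.inter (heq b)) inter_subset_left
      inter_subset_left (fun D a1 a2 a3 a4 a5 => h ⟨D, a1, a2, a3, a4, a5⟩)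
    have hS1 : S₁ ⊆ S := by rw [← h4]; exact subset_union_left
    have hS2 : S₂ ⊆ S := by rw [← h4]; exact subset_union_right
    refine not_split hCc.isPreconnected ((hC.inter (hle a)).union h1)
      (h2.union (hC.inter (hge b))) ?_ ?_ ?_ ?_
    · intro p hp
      by_cases h7 : p.2 ≤ a
      · exact Or.inl (Or.inl ⟨hp, h7⟩)
      by_cases h8 : b ≤ p.2
      · exact Or.inr (Or.inr ⟨hp, h8⟩)
      have : p ∈ S₁ ∪ S₂ := by
        rw [h4]
        exact ⟨hp, mem_univ _, (not_le.1 h7).le, (not_le.1 h8).le⟩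
      rcases this with h9 | h9
      · exact Or.inl (Or.inr h9)
      · exact Or.inr (Or.inl h9)
    · intro p hp hp1 hp2
      rcases hp1 with hp1 | hp1 <;> rcases hp2 with hp2 | hp2
      · have h7 : p.2 = a := le_antisymm hp1.2 (hS2 hp2).2.2.1
        exact Set.disjoint_left.1 h3 (h5 ⟨hS2 hp2, h7⟩) hp2
      · have h7 : p.2 ≤ a := hp1.2
        have h8 : b ≤ p.2 := hp2.2
        linarith
      · exact Set.disjoint_left.1 h3 hp1 hp2
      · have h7 : p.2 = b := le_antisymm (hS1 hp1).2.2.2 hp2.2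
        exact Set.disjoint_left.1 h3 hp1 (h6 ⟨hS1 hp1, h7⟩)
    · obtain ⟨p, hp, hpa⟩ := ha
      exact ⟨p, hp, Or.inl ⟨hp, hpa⟩⟩
    · obtain ⟨p, hp, hpb⟩ := hb
      exact ⟨p, hp, Or.inr ⟨hp, hpb⟩⟩

end Pool.Agent.MP_a56558_gt
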