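import Pool.Agent.MP_a56558_gt.Defs

set_option autoImplicit false

namespace Pool.Agent.MP_a56558_gt

open Set Filter Topology

theorem isClosed_ulim {ι α : Type*} [PseudoMetricSpace α] (U : Ultrafilter ι) (A : ι → Set α) :
    IsClosed (ulim U A) := by
  rw [← closure_subset_iff_isClosed]
  intro p hp η hη
  obtain ⟨q, hq, hpq⟩ := Metric.mem_closure_iff.mp hp (η / 2) (by positivity)
  filter_upwards [hq (η / 2) (by positivity)] with i hi
  obtain ⟨a, ha, hqa⟩ := hi
  exact ⟨a, ha, by linarith [dist_triangle p q a]⟩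

/-- [U1] -/
theorem lim_mem_ulim {ι α : Type*} [MetricSpace α] {U : Ultrafilter ι} {A : ι → Set α}
    {K : Set α} (hK : IsCompact K) {a : ι → α} (ha : ∀ᶠ i in (U : Filter ι), a i ∈ A i)
    (haK : ∀ᶠ i in (U : Filter ι), a i ∈ K) :
    ∃ p ∈ K, Tendsto a (U : Filter ι) (𝓝 p) ∧ p ∈ ulim U A := by
  obtain ⟨p, hpK, hp⟩ := hK.ultrafilter_le_nhds (U.map a) (by
    simp only [le_principal_iff, Ultrafilter.mem_coe, Ultrafilter.mem_map]
    exact haK)
  have hp' : Tendsto a (U : Filter ι) (𝓝 p) := hp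
  refine ⟨p, hpK, hp', ?_⟩
  intro η hη
  have h1 : ∀ᶠ i in (U : Filter ι), dist (a i) p < η := hp'.eventually (Metric.ball_mem_nhds p hη)
  filter_upwards [ha, h1] with i hi hi'
  exact ⟨a i, hi, by rw [dist_comm]; exact hi'⟩

/-- [U4] -/
theorem ulim_subset_of_closed {ι α : Type*} [MetricSpace α] {U : Ultrafilter ι}
    {A : ι → Set α} {F : Set α} (hF : IsClosed F) (hA : ∀ᶠ i in (U : Filter ι), A i ⊆ F) :
    ulim U A ⊆ F := by
  intro p hp
  rw [← hF.closure_eq, Metric.mem_closure_iff]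
  intro η hη
  obtain ⟨i, hi, a, ha, hpa⟩ := (hA.and (hp η hη)).exists
  exact ⟨a, hi ha, hpa⟩

/-- [U2] -/
theorem image_ulim {ι α β : Type*} [MetricSpace α] [MetricSpace β] {U : Ultrafilter ι}
    {A : ι → Set α} {K : Set α} (hK : IsCompact K) (hA : ∀ᶠ i in (U : Filter ι), A i ⊆ K)
    {g : α → β} (hg : Continuous g) : g '' ulim U A = ulim U (fun i => g '' A i) := by
  apply Subset.antisymm
  · rintro _ ⟨p, hp, rfl⟩ η hη
    obtain ⟨δ, hδ, h⟩ := Metric.continuousAt_iff.mp (hg.continuousAt (x := p)) η hη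
    filter_upwards [hp δ hδ] with i hi
    obtain ⟨a, ha, hpa⟩ := hi
    exact ⟨g a, mem_image_of_mem _ ha, by
      rw [dist_comm]; exact h (by rw [dist_comm]; exact hpa)⟩
  · intro q hq
    have hne : ∀ η : ℝ, 0 < η → ∃ p ∈ K, p ∈ ulim U A ∧ dist q (g p) ≤ η := by
      intro η hη
      have h1 := hq η hη
      obtain ⟨i₀, hi₀⟩ := h1.exists
      obtain ⟨_, ⟨a₀, -, -⟩, -⟩ := hi₀
      classical
      have hchoice : ∃ a : ι → α, ∀ᶠ i in (U : Filter ι), a i ∈ A i ∧ dist q (g (a i)) < η := by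
        refine ⟨fun i => if h : ∃ a ∈ A i, dist q (g a) < η then h.choose else a₀, ?_⟩
        filter_upwards [h1] with i hi
        have h : ∃ a ∈ A i, dist q (g a) < η := by
          obtain ⟨_, ⟨a, ha, rfl⟩, h⟩ := hi
          exact ⟨a, ha, h⟩
        rw [dif_pos h]
        exact h.choose_spec
      obtain ⟨a, ha⟩ := hchoice
      obtain ⟨p, hpK, hp, hpu⟩ := lim_mem_ulim hK (ha.mono fun i hi => hi.1)
        ((ha.and hA).mono fun i hi => hi.2 hi.1.1)
      refine ⟨p, hpK, hpu, ?_⟩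
      have h2 : Tendsto (fun i => dist q (g (a i))) (U : Filter ι) (𝓝 (dist q (g p))) :=
        tendsto_const_nhds.dist ((hg.tendsto p).comp hp)
      exact le_of_tendsto h2 (ha.mono fun i hi => hi.2.le)
    have hnon : (⋂ n : ℕ, (K ∩ ulim U A ∩ {p | dist q (g p) ≤ 1 / ((n : ℝ) + 1)})).Nonempty := by
      apply IsCompact.nonempty_iInter_of_sequence_nonempty_isCompact_isClosed
      · intro n p hp
        have h1 : dist q (g p) ≤ 1 / (((n + 1 : ℕ) : ℝ) + 1) := hp.2
        have h2 : 1 / (((n + 1 : ℕ) : ℝ) + 1) ≤ 1 / ((n : ℝ) + 1) := by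
          push_cast
          apply one_div_le_one_div_of_le (by positivity)
          linarith
        exact ⟨hp.1, h1.trans h2⟩
      · intro n
        obtain ⟨p, h1, h2, h3⟩ := hne (1 / ((n : ℝ) + 1)) (by positivity)
        exact ⟨p, ⟨h1, h2⟩, h3⟩
      · exact (hK.inter_right (isClosed_ulim U A)).inter_right
          (isClosed_le (continuous_const.dist hg) continuous_const)
      · intro n
        exact (hK.isClosed.inter (isClosed_ulim U A)).inter
          (isClosed_le (continuous_const.dist hg) continuous_const)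
    obtain ⟨p, hp⟩ := hnon
    rw [mem_iInter] at hp
    refine ⟨p, (hp 0).1.2, ?_⟩
    have h0 : dist q (g p) ≤ 0 := by
      apply ge_of_tendsto' tendsto_one_div_add_atTop_nhds_zero_nat
      intro n
      exact (hp n).2
    exact (dist_le_zero.mp h0).symm

/-- [U3] -/
theorem isConnected_ulim {ι α : Type*} [MetricSpace α] {U : Ultrafilter ι}
    {A : ι → Set α} {K : Set α} (hK : IsCompact K) (hA : ∀ᶠ i in (U : Filter ι), A i ⊆ K)
    (hne : ∀ᶠ i in (U : Filter ι), (A i).Nonempty)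
    (hconn : ∀ η : ℝ, 0 < η → ∀ᶠ i in (U : Filter ι), ChainConn η (A i)) :
    IsConnected (ulim U A) := by
  classical
  have hchoice : ∀ P : ι → α → Prop, (∀ᶠ i in (U : Filter ι), ∃ a ∈ A i, P i a) →
      ∃ a : ι → α, ∀ᶠ i in (U : Filter ι), a i ∈ A i ∧ P i (a i) := by
    intro P hP
    obtain ⟨i₀, hi₀⟩ := hP.exists
    obtain ⟨a₀, -, -⟩ := hi₀
    refine ⟨fun i => if h : ∃ a ∈ A i, P i a then h.choose else a₀, ?_⟩
    filter_upwards [hP] with i hi
    rw [dif_pos hi]
    exact hi.choose_spec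
  have hsub : ulim U A ⊆ K := ulim_subset_of_closed hK.isClosed hA
  constructor
  · obtain ⟨a, ha⟩ := hchoice (fun _ _ => True) (hne.mono fun i ⟨a, ha⟩ => ⟨a, ha, trivial⟩)
    obtain ⟨p, -, -, hp⟩ := lim_mem_ulim hK (ha.mono fun i hi => hi.1)
      ((ha.and hA).mono fun i hi => hi.2 hi.1.1)
    exact ⟨p, hp⟩
  · rw [isPreconnected_closed_iff]
    intro t t' ht ht' hcov ⟨x, hx, hxt⟩ ⟨x', hx', hxt'⟩
    by_contra hemp
    have hP : IsCompact (ulim U A ∩ t) := (hK.of_isClosed_subset (isClosed_ulim U A) hsub).inter_right ht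
    have hQ : IsCompact (ulim U A ∩ t') :=
      (hK.of_isClosed_subset (isClosed_ulim U A) hsub).inter_right ht'
    have hdisj : Disjoint (ulim U A ∩ t) (ulim U A ∩ t') := by
      rw [Set.disjoint_left]
      intro y hy hy'
      exact hemp ⟨y, hy.1, hy.2, hy'.2⟩
    obtain ⟨r, hr, hrd⟩ := Metric.exists_pos_forall_lt_edist hP hQ.isClosed hdisj
    have hrd' : ∀ a ∈ ulim U A ∩ t, ∀ b ∈ ulim U A ∩ t', (r : ℝ) < dist a b := by
      intro a ha b hb
      have := hrd a ha b hb
      rw [edist_nndist, ENNReal.coe_lt_coe] at this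
      exact_mod_cast this
    have hr' : (0 : ℝ) < r := by exact_mod_cast hr
    set η : ℝ := r / 3 with hη
    have hη0 : 0 < η := by positivity
    -- neighbourhoods
    have hcovA : ∀ᶠ i in (U : Filter ι), ∀ a ∈ A i,
        (∃ b ∈ ulim U A ∩ t, dist a b < η) ∨ (∃ b ∈ ulim U A ∩ t', dist a b < η) := by
      by_contra hn
      rw [← Ultrafilter.eventually_not] at hn
      obtain ⟨a, ha⟩ := hchoice (fun i a => ¬ ((∃ b ∈ ulim U A ∩ t, dist a b < η) ∨
        (∃ b ∈ ulim U A ∩ t', dist a b < η))) (hn.mono fun i hi => by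
          push Not at hi
          obtain ⟨a, ha, h1, h2⟩ := hi
          refine ⟨a, ha, ?_⟩
          push Not
          exact ⟨h1, h2⟩)
      obtain ⟨p, -, hp, hpu⟩ := lim_mem_ulim hK (ha.mono fun i hi => hi.1)
        ((ha.and hA).mono fun i hi => hi.2 hi.1.1)
      obtain ⟨i, hi1, hi2⟩ := (ha.and (hp.eventually (Metric.ball_mem_nhds p hη0))).exists
      apply hi1.2
      rcases hcov hpu with h | h
      · exact Or.inl ⟨p, ⟨hpu, h⟩, hi2⟩
      · exact Or.inr ⟨p, ⟨hpu, h⟩, hi2⟩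
    obtain ⟨i, hi1, hi2, ⟨a, haA, ha⟩, ⟨b, hbA, hb⟩⟩ :=
      (hcovA.and ((hconn η hη0).and ((hx η hη0).and (hx' η hη0)))).exists
    have hind : ∀ c, Relation.ReflTransGen (fun x y => x ∈ A i ∧ y ∈ A i ∧ dist x y < η) a c →
        ∃ d ∈ ulim U A ∩ t, dist c d < η := by
      intro c hc
      induction hc with
      | refl => exact ⟨x, ⟨hx, hxt⟩, by rw [dist_comm]; exact ha⟩
      | tail _ hstep ih =>
        obtain ⟨hy, hz, hyz⟩ := hstep
        obtain ⟨d, hd, hyd⟩ := ih
        rcases hi1 _ hz with h | ⟨d', hd', hzd'⟩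
        · exact h
        · exfalso
          have h1 := hrd' d hd d' hd'
          rename_i y z _
          have h3 := dist_triangle4 d y z d'
          rw [dist_comm d y] at h3
          linarith
    obtain ⟨d, hd, hbd⟩ := hind b (hi2 a haA b hbA)
    have h1 := hrd' d hd x' ⟨hx', hxt'⟩
    have h2 := dist_triangle d b x'
    rw [dist_comm d b, dist_comm b x'] at h2
    linarith

/-- [U5] -/
theorem chainConn_of_isPreconnected {α : Type*} [PseudoMetricSpace α] {A : Set α}
    (hA : IsPreconnected A) {η : ℝ} (hη : 0 < η) : ChainConn η A := by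
  intro a ha b hb
  refine hA.induction₂' (fun x y => Relation.ReflTransGen
    (fun x y => x ∈ A ∧ y ∈ A ∧ dist x y < η) x y) ?_ ?_ ha hb
  · intro x hx
    filter_upwards [self_mem_nhdsWithin, mem_nhdsWithin_of_mem_nhds (Metric.ball_mem_nhds x hη)]
      with y hy hyx
    rw [Metric.mem_ball] at hyx
    exact ⟨Relation.ReflTransGen.single ⟨hx, hy, by rw [dist_comm]; exact hyx⟩,
      Relation.ReflTransGen.single ⟨hy, hx, hyx⟩⟩
  · intro x y z _ _ _ hxy hyz
    exact hxy.trans hyz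

end Pool.Agent.MP_a56558_gt
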