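import Pool.Agent.MP_a56558_gt.Top
import Pool.Agent.MP_a56558_gt.Ulim
import Pool.Agent.MP_a56558_gt.Sep

set_option autoImplicit false

namespace Pool.Agent.MP_a56558_gt

open Set Filter Topology

theorem isClosed_Far {X : Type*} [MetricSpace X] (e : ℝ) (l : List X) : IsClosed (Far e l) := by
  have h : Far e l = ⋃ i : Fin l.length, {p : X × ℝ | ((i : ℕ) : ℝ) ≤ p.2 ∧
      p.2 ≤ ((i : ℕ) : ℝ) + 1 ∧ e ≤ dist p.1 l[i]} := by
    ext p
    simp only [Far, mem_ofPred_eq, mem_iUnion]
    constructor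
    · rintro ⟨i, y, hy, h1, h2, h3⟩
      obtain ⟨hi, rfl⟩ := List.getElem?_eq_some_iff.mp hy
      exact ⟨⟨i, hi⟩, h1, h2, h3⟩
    · rintro ⟨⟨i, hi⟩, h1, h2, h3⟩
      exact ⟨i, l[i], List.getElem?_eq_getElem hi, h1, h2, h3⟩
  rw [h]
  apply isClosed_iUnion_of_finite
  intro i
  exact (isClosed_le continuous_const continuous_snd).inter
    ((isClosed_le continuous_snd continuous_const).inter
      (isClosed_le continuous_const (continuous_fst.dist continuous_const)))

/-- [D] dichotomy -/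
theorem catch_or_evade {X : Type*} [MetricSpace X] [CompactSpace X] [ConnectedSpace X]
    {e : ℝ} (l : List X) (hl : l ≠ []) :
    (∃ C : Set (X × ℝ), IsClosed C ∧ IsConnected C ∧ C ⊆ Near e l ∧ Prod.fst '' C = univ) ∨
    ∃ C, Evader e univ l C := by
  by_cases hev : ∃ C, Evader e univ l C
  · exact Or.inr hev
  left
  set n : ℝ := (l.length : ℝ) with hn
  have hn1 : (1 : ℝ) ≤ n := by
    rw [hn]
    exact_mod_cast List.length_pos_iff.mpr hl
  have hlev : (1 / 3 : ℝ) < n - 1 / 3 := by linarith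
  set S : Set (X × ℝ) := Far e l ∩ {p | 1 / 3 ≤ p.2 ∧ p.2 ≤ n - 1 / 3} with hS
  have hSc : IsCompact S := by
    have h1 : S ⊆ univ ×ˢ Icc (1 / 3 : ℝ) (n - 1 / 3) := fun p hp => ⟨mem_univ _, hp.2⟩
    have h2 : IsClosed S := (isClosed_Far e l).inter
      ((isClosed_le continuous_const continuous_snd).inter
        (isClosed_le continuous_snd continuous_const))
    exact (isCompact_univ.prod isCompact_Icc).of_isClosed_subset h2 h1
  obtain ⟨S₁, S₂, hS₁, hS₂, hd, hun, hP, hQ⟩ := exists_separation (S := S)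
    (P := S ∩ {p | p.2 = 1 / 3}) (Q := S ∩ {p | p.2 = n - 1 / 3}) hSc
    (hSc.isClosed.inter (isClosed_eq continuous_snd continuous_const))
    (hSc.isClosed.inter (isClosed_eq continuous_snd continuous_const))
    inter_subset_left inter_subset_left (by
      rintro C hC hCc hCS ⟨a, haC, haP⟩ ⟨b, hbC, hbQ⟩
      exact hev ⟨C, ⟨hC, hCc, fun p hp => (hCS hp).1, fun p hp => (hCS hp).2,
        ⟨a, haC, haP.2⟩, ⟨b, hbC, hbQ.2⟩⟩, fun p _ => mem_univ _⟩)
  have hcl1 : IsClosed (S₁ ∪ {p : X × ℝ | p.2 ≤ 1 / 3}) :=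
    hS₁.union (isClosed_le continuous_snd continuous_const)
  have hcl2 : IsClosed (S₂ ∪ {p : X × ℝ | n - 1 / 3 ≤ p.2}) :=
    hS₂.union (isClosed_le continuous_const continuous_snd)
  have hS₁S : S₁ ⊆ S := by rw [← hun]; exact subset_union_left
  have hS₂S : S₂ ⊆ S := by rw [← hun]; exact subset_union_right
  have hdisj : Disjoint (S₁ ∪ {p : X × ℝ | p.2 ≤ 1 / 3}) (S₂ ∪ {p : X × ℝ | n - 1 / 3 ≤ p.2}) := by
    rw [Set.disjoint_left]
    rintro p (h1 | h1) (h2 | h2)
    · exact (Set.disjoint_left.mp hd) h1 h2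
    · have h3 : p ∈ S₂ := hQ ⟨hS₁S h1, le_antisymm (hS₁S h1).2.2 h2⟩
      exact (Set.disjoint_left.mp hd) h1 h3
    · have h3 : p ∈ S₁ := hP ⟨hS₂S h2, le_antisymm h1 (hS₂S h2).2.1⟩
      exact (Set.disjoint_left.mp hd) h3 h2
    · have h1' : p.2 ≤ 1 / 3 := h1
      have h2' : n - 1 / 3 ≤ p.2 := h2
      linarith
  obtain ⟨u, hu0, hu1, -⟩ := exists_continuous_zero_one_of_isClosed hcl1 hcl2 hdisj
  obtain ⟨C, hC, hCc, hCu, hCX⟩ := exists_level_continuum u.continuous hlev
    (fun p hp => hu0 (Or.inr hp)) (fun p hp => hu1 (Or.inr hp))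
  refine ⟨C, hC, hCc, ?_, hCX⟩
  intro p hp
  have hup := hCu p hp
  have h1 : 1 / 3 < p.2 := by
    by_contra h
    push Not at h
    have : u p = 0 := hu0 (Or.inr h)
    rw [this] at hup
    norm_num at hup
  have h2 : p.2 < n - 1 / 3 := by
    by_contra h
    push Not at h
    have : u p = 1 := hu1 (Or.inr h)
    rw [this] at hup
    norm_num at hup
  have h3 : p ∉ S := by
    intro h
    rw [← hun] at h
    rcases h with h | h
    · have : u p = 0 := hu0 (Or.inl h)
      rw [this] at hup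
      norm_num at hup
    · have : u p = 1 := hu1 (Or.inl h)
      rw [this] at hup
      norm_num at hup
  have h4 : p ∉ Far e l := fun h => h3 ⟨h, h1.le, h2.le⟩
  have hi1 : ((⌊p.2⌋₊ : ℕ) : ℝ) ≤ p.2 := Nat.floor_le (by linarith)
  have hi2 : p.2 < ((⌊p.2⌋₊ : ℕ) : ℝ) + 1 := Nat.lt_floor_add_one p.2
  have hi3 : ⌊p.2⌋₊ < l.length := by
    have : ((⌊p.2⌋₊ : ℕ) : ℝ) < (l.length : ℝ) := by linarith
    exact_mod_cast this
  refine ⟨⌊p.2⌋₊, l[⌊p.2⌋₊], List.getElem?_eq_getElem hi3, hi1, hi2.le, ?_⟩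
  by_contra h
  push Not at h
  exact h4 ⟨⌊p.2⌋₊, l[⌊p.2⌋₊], List.getElem?_eq_getElem hi3, hi1, hi2.le, h.le⟩

/-- [W2] restriction of an evader to a subwalk -/
theorem evader_infix {X : Type*} [MetricSpace X] [CompactSpace X] {e : ℝ}
    {v w : List X} (hv : v ≠ []) (hvw : v <:+: w) {B : Set X} {C : Set (X × ℝ)}
    (hC : Evader e B w C) : ∃ D, Evader e (Prod.fst '' C) v D := by
  obtain ⟨s, t, rfl⟩ := hvw
  obtain ⟨⟨c1, c2, c3, c4, ⟨p, hp, hp2⟩, ⟨q, hq, hq2⟩⟩, -⟩ := hC
  have hv1 : (1 : ℝ) ≤ (v.length : ℝ) := by exact_mod_cast List.length_pos_iff.mpr hv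
  have hs0 : (0 : ℝ) ≤ (s.length : ℝ) := by positivity
  have ht0 : (0 : ℝ) ≤ (t.length : ℝ) := by positivity
  have hlen : (((s ++ v ++ t).length : ℕ) : ℝ) = (s.length : ℝ) + v.length + t.length := by
    simp [add_assoc]
  obtain ⟨D', d1, d2, d3, d4, ⟨a, ha, ha2⟩, ⟨b, hb, hb2⟩⟩ := exists_crossing_sub c1 c2
    (a := (s.length : ℝ) + 1 / 3) (b := (s.length : ℝ) + v.length - 1 / 3) (by linarith)
    ⟨p, hp, by rw [hp2]; linarith⟩ ⟨q, hq, by rw [hq2, hlen]; linarith⟩
  set φ : X × ℝ → X × ℝ := fun p => (p.1, p.2 - s.length) with hφ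
  set ψ : X × ℝ → X × ℝ := fun p => (p.1, p.2 + s.length) with hψ
  have hφc : Continuous φ := continuous_fst.prodMk (continuous_snd.sub continuous_const)
  have hψc : Continuous ψ := continuous_fst.prodMk (continuous_snd.add continuous_const)
  have himg : φ '' D' = ψ ⁻¹' D' := by
    ext p
    constructor
    · rintro ⟨q, hq, rfl⟩
      simpa [hφ, hψ] using hq
    · intro hp
      exact ⟨ψ p, hp, by simp [hφ, hψ]⟩
  refine ⟨φ '' D', ⟨?_, d2.image _ hφc.continuousOn, ?_, ?_, ⟨φ a, mem_image_of_mem _ ha, ?_⟩,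
    ⟨φ b, mem_image_of_mem _ hb, ?_⟩⟩, ?_⟩
  · rw [himg]; exact d1.preimage hψc
  · rintro _ ⟨p, hp, rfl⟩
    obtain ⟨j, y, hy, h1, h2, h3⟩ := c3 (d3 hp)
    obtain ⟨l1, l2⟩ := d4 p hp
    have hj1 : s.length ≤ j := by
      have : (s.length : ℝ) < (j : ℝ) + 1 := by linarith
      have : s.length < j + 1 := by exact_mod_cast this
      omega
    have hj2 : j < s.length + v.length := by
      have : (j : ℝ) < (s.length : ℝ) + v.length := by linarith
      exact_mod_cast this
    refine ⟨j - s.length, y, ?_, ?_, ?_, h3⟩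
    · rw [List.append_assoc, List.getElem?_append_right hj1,
        List.getElem?_append_left (by omega)] at hy
      exact hy
    · simp only [hφ]
      rw [Nat.cast_sub hj1]
      linarith
    · simp only [hφ]
      rw [Nat.cast_sub hj1]
      linarith
  · rintro _ ⟨p, hp, rfl⟩
    obtain ⟨l1, l2⟩ := d4 p hp
    simp only [hφ]
    constructor <;> linarith
  · simp only [hφ]; rw [ha2]; ring
  · simp only [hφ]; rw [hb2]; ring
  · rintro _ ⟨p, hp, rfl⟩
    exact ⟨p, d3 hp, rfl⟩

theorem exists_chain_of_reflTransGen {α : Type*} {r : α → α → Prop} {a b : α}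
    (h : Relation.ReflTransGen r a b) :
    ∃ l : List α, (a :: l).IsChain r ∧ (a :: l).getLast (List.cons_ne_nil _ _) = b :=
  List.exists_isChain_cons_of_relationReflTransGen h

/-- [W3] directedness of walks in a continuum -/
theorem walk_directed {X : Type*} [MetricSpace X] {δ : ℝ} (hδ : 0 < δ) {B : Set X}
    (hB : IsConnected B) {v w : List X} (hv : IsWalk δ B v) (hw : IsWalk δ B w) :
    ∃ u, IsWalk δ B u ∧ v <:+: u ∧ w <:+: u := by
  obtain ⟨v1, v2, v3⟩ := hv
  obtain ⟨w1, w2, w3⟩ := hw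
  have ha : v.getLast v1 ∈ B := v3 _ (List.getLast_mem v1)
  have hb : w.head w1 ∈ B := w3 _ (List.head_mem w1)
  obtain ⟨l, hl1, hl2⟩ := exists_chain_of_reflTransGen
    (chainConn_of_isPreconnected hB.isPreconnected hδ _ ha _ hb)
  have hlB : ∀ x ∈ l, x ∈ B := by
    intro x hx
    have : ∀ (m : List X) (a : X), (a :: m).IsChain (fun x y => x ∈ B ∧ y ∈ B ∧ dist x y < δ) →
        ∀ x ∈ m, x ∈ B := by
      intro m
      induction m with
      | nil => intro a _ x hx; simp at hx
      | cons c m ih =>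
        intro a hch x hx
        rw [List.isChain_cons_cons] at hch
        rcases List.mem_cons.mp hx with rfl | hx
        · exact hch.1.2.1
        · exact ih c hch.2 x hx
    exact this l _ hl1 x hx
  have hl1' : (v.getLast v1 :: l).IsChain (fun x y => dist x y < δ) :=
    hl1.imp (fun x y h => h.2.2)
  -- `v ++ l ++ w` has a repeated vertex `head w` (last of `l`), which is harmless
  refine ⟨v ++ l ++ w, ⟨?_, ?_, ?_⟩, ⟨[], l ++ w, by simp⟩, ⟨v ++ l, [], by simp⟩⟩
  · simp [v1]
  · rw [List.isChain_append, List.isChain_append]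
    refine ⟨⟨v2, hl1'.tail, ?_⟩, w2, ?_⟩
    · intro x hx y hy
      rw [List.getLast?_eq_some_getLast v1] at hx
      simp only [Option.mem_def, Option.some.injEq] at hx
      subst hx
      cases l with
      | nil => simp at hy
      | cons c l =>
        simp only [List.head?_cons, Option.mem_def, Option.some.injEq] at hy
        subst hy
        rw [List.isChain_cons_cons] at hl1'
        exact hl1'.1
    · intro x hx y hy
      have hy' : y = w.head w1 := by
        rw [List.head?_eq_some_head w1] at hy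
        simp only [Option.mem_def, Option.some.injEq] at hy
        exact hy.symm
      have hx' : x = w.head w1 := by
        rw [← hl2]
        cases l with
        | nil =>
          simp only [List.append_nil] at hx
          rw [List.getLast?_eq_some_getLast v1] at hx
          simp only [Option.mem_def, Option.some.injEq] at hx
          simp [hx]
        | cons c l =>
          rw [List.getLast?_append_of_ne_nil _ (List.cons_ne_nil _ _),
            List.getLast?_eq_some_getLast (List.cons_ne_nil _ _)] at hx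
          simp only [Option.mem_def, Option.some.injEq] at hx
          rw [← hx]
          exact (List.getLast_cons (List.cons_ne_nil c l)).symm
      rw [hx', hy', dist_self]
      exact hδ
  · intro a ha
    simp only [List.mem_append] at ha
    rcases ha with (ha | ha) | ha
    · exact v3 a ha
    · exact hlB a ha
    · exact w3 a ha

end Pool.Agent.MP_a56558_gt
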