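import Pool.Agent.MP_a56558_gt.WalkA

set_option autoImplicit false

namespace Pool.Agent.MP_a56558_gt

open Set Filter Topology



/-! ### Block W, part B -/


theorem ulim_mono {ι α : Type*} [PseudoMetricSpace α] {U : Ultrafilter ι} {A A' : ι → Set α}
    (h : ∀ᶠ i in (U : Filter ι), A i ⊆ A' i) : ulim U A ⊆ ulim U A' := by
  intro p hp η hη
  filter_upwards [h, hp η hη] with i hi ⟨a, ha, hd⟩
  exact ⟨a, hi ha, hd⟩

theorem Evader.mono {X : Type*} [MetricSpace X] {e : ℝ} {B B' : Set X} {l : List X}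
    {C : Set (X × ℝ)} (h : Evader e B l C) (hB : B ⊆ B') : Evader e B' l C :=
  ⟨h.1, fun p hp => hB (h.2 p hp)⟩

theorem IsWalk.mono {X : Type*} [MetricSpace X] {δ : ℝ} {B B' : Set X} {l : List X}
    (h : IsWalk δ B l) (hB : B ⊆ B') : IsWalk δ B' l :=
  ⟨h.1, h.2.1, fun a ha => hB (h.2.2 a ha)⟩

theorem Evader.fst_subset {X : Type*} [MetricSpace X] {e : ℝ} {B : Set X} {l : List X}
    {C : Set (X × ℝ)} (h : Evader e B l C) : Prod.fst '' C ⊆ B := by
  rintro _ ⟨p, hp, rfl⟩
  exact h.2 p hp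

/-- [W1] limit of evaders -/
theorem evader_ulim {X ι : Type*} [MetricSpace X] [CompactSpace X] {U : Ultrafilter ι} {e : ℝ}
    {l : List X} (hl : l ≠ []) {B : ι → Set X} {C : ι → Set (X × ℝ)}
    (hC : ∀ᶠ i in (U : Filter ι), Evader e (B i) l (C i)) :
    Evader e (ulim U (fun i => Prod.fst '' C i)) l (ulim U C) := by
  classical
  set s : ℝ := 1 / 3 with hs
  set t : ℝ := (l.length : ℝ) - 1 / 3 with ht
  set K : Set (X × ℝ) := (univ : Set X) ×ˢ Icc s t with hKdef
  have hK : IsCompact K := isCompact_univ.prod isCompact_Icc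
  have hCK : ∀ᶠ i in (U : Filter ι), C i ⊆ K := by
    filter_upwards [hC] with i hi p hp
    exact ⟨mem_univ _, hi.1.2.2.2.1 p hp⟩
  have hne : ∀ᶠ i in (U : Filter ι), (C i).Nonempty := by
    filter_upwards [hC] with i hi
    exact hi.1.2.1.nonempty
  have hconn : ∀ η : ℝ, 0 < η → ∀ᶠ i in (U : Filter ι), ChainConn η (C i) := by
    intro η hη
    filter_upwards [hC] with i hi
    exact chainConn_of_isPreconnected hi.1.2.1.isPreconnected hη
  have hlev : ∀ r : ℝ, (∀ᶠ i in (U : Filter ι), ∃ p ∈ C i, p.2 = r) → ∃ p ∈ ulim U C, p.2 = r := by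
    intro r hr
    have hneU : ∃ i : ι, ∃ p ∈ C i, p.2 = r := hr.exists
    obtain ⟨i₀, p₀, _, _⟩ := hneU
    let a : ι → X × ℝ := fun i => if h : ∃ p ∈ C i, p.2 = r then h.choose else p₀
    have ha : ∀ᶠ i in (U : Filter ι), a i ∈ C i ∧ (a i).2 = r := by
      filter_upwards [hr] with i hi
      simp only [a, dif_pos hi]
      exact hi.choose_spec
    obtain ⟨p, _, hp, hpu⟩ := lim_mem_ulim (A := C) hK (ha.mono fun i hi => hi.1)
      (by filter_upwards [ha, hCK] with i hi hi' using hi' hi.1)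
    refine ⟨p, hpu, ?_⟩
    have h1 : Tendsto (fun i => (a i).2) (U : Filter ι) (𝓝 p.2) :=
      (continuous_snd.tendsto p).comp hp
    have h2 : Tendsto (fun i => (a i).2) (U : Filter ι) (𝓝 r) :=
      tendsto_const_nhds.congr' (ha.mono fun i hi => hi.2.symm)
    exact tendsto_nhds_unique h1 h2
  refine ⟨⟨isClosed_ulim U C, isConnected_ulim hK hCK hne hconn, ?_, ?_, ?_, ?_⟩, ?_⟩
  · exact ulim_subset_of_closed (isClosed_Far e l) (hC.mono fun i hi => hi.1.2.2.1)
  · have hcl : IsClosed {p : X × ℝ | s ≤ p.2 ∧ p.2 ≤ t} :=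
      (isClosed_le continuous_const continuous_snd).inter
        (isClosed_le continuous_snd continuous_const)
    exact ulim_subset_of_closed hcl (hC.mono fun i hi => hi.1.2.2.2.1)
  · exact hlev s (hC.mono fun i hi => hi.1.2.2.2.2.1)
  · exact hlev t (hC.mono fun i hi => hi.1.2.2.2.2.2)
  · intro p hp
    rw [← image_ulim hK hCK continuous_fst]
    exact ⟨p, hp, rfl⟩

/-- [W4] minimal survivor -/
theorem exists_minimal_surv {X : Type*} [MetricSpace X] [CompactSpace X] [ConnectedSpace X]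
    {e δ : ℝ} (hδ : 0 < δ) (h : Surv e δ (univ : Set X)) :
    ∃ B : Set X, IsClosed B ∧ IsConnected B ∧ Surv e δ B ∧
      ∀ B' : Set X, IsClosed B' → IsConnected B' → Surv e δ B' → B' ⊆ B → B' = B := by
  classical
  set S : Set (Set X) := {B | IsClosed B ∧ IsConnected B ∧ Surv e δ B} with hS
  have huniv : (univ : Set X) ∈ S := ⟨isClosed_univ, isConnected_univ, h⟩
  obtain ⟨m, -, hm⟩ := zorn_superset_nonempty S (by
    intro c hcS hch hcne
    obtain ⟨h1, h2⟩ := isConnected_sInter_chain hcne hch fun K hK => ⟨(hcS hK).1, (hcS hK).2.1⟩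
    refine ⟨⋂₀ c, ⟨h1, h2, ?_⟩, fun s hs => sInter_subset_of_mem hs⟩
    intro l hl
    -- choose evaders
    have hev : ∀ K : c, ∃ C, Evader e (K : Set X) l C := fun K =>
      (hcS K.2).2.2 l (hl.mono (sInter_subset_of_mem K.2))
    choose C hC using hev
    -- ultrafilter
    have : Nonempty c := hcne.to_subtype
    have hdir : Directed (· ≥ ·) (fun K : c => 𝓟 {K' : c | (K' : Set X) ⊆ K}) := by
      intro K₁ K₂
      rcases hch.total K₁.2 K₂.2 with hle | hle
      · exact ⟨K₁, le_rfl, principal_mono.mpr fun K' hK' => hK'.trans hle⟩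
      · exact ⟨K₂, principal_mono.mpr fun K' hK' => hK'.trans hle, le_rfl⟩
    have hNB : NeBot (⨅ K : c, 𝓟 {K' : c | (K' : Set X) ⊆ K}) := by
      refine iInf_neBot_of_directed' hdir fun K => ?_
      rw [principal_neBot_iff]
      exact ⟨K, Subset.rfl⟩
    let U : Ultrafilter c := Ultrafilter.of (⨅ K : c, 𝓟 {K' : c | (K' : Set X) ⊆ K})
    have hU : ∀ K : c, ∀ᶠ K' : c in (U : Filter c), (K' : Set X) ⊆ K := by
      intro K
      have h3 : (U : Filter c) ≤ 𝓟 {K' : c | (K' : Set X) ⊆ K} :=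
        (Ultrafilter.of_le _).trans (iInf_le _ K)
      exact h3 (mem_principal_self _)
    refine ⟨ulim U C, (evader_ulim hl.1 (B := fun K : c => (K : Set X))
      (Eventually.of_forall hC)).mono ?_⟩
    refine subset_sInter fun K hK => ?_
    apply ulim_subset_of_closed (hcS hK).1
    filter_upwards [hU ⟨K, hK⟩] with K' hK'
    exact (hC K').fst_subset.trans hK') univ huniv
  refine ⟨m, hm.prop.1, hm.prop.2.1, hm.prop.2.2, ?_⟩
  intro B' h1 h2 h3 h4
  exact Subset.antisymm h4 (hm.le_of_le ⟨h1, h2, h3⟩ h4)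

/-- [W5] dense evaders -/
theorem exists_dense_evader {X : Type*} [MetricSpace X] [CompactSpace X] [ConnectedSpace X]
    {e δ ρ : ℝ} (hδ : 0 < δ) (hρ : 0 < ρ) (h : Surv e δ (univ : Set X)) :
    ∃ (B : Set X) (l : List X) (C : Set (X × ℝ)), IsWalk δ B l ∧ Evader e B l C ∧
      ∀ b ∈ B, (∃ a ∈ l, dist b a < ρ) ∧ (∃ c ∈ C, dist b c.1 < ρ) := by
  classical
  obtain ⟨B, hBc, hBconn, hBs, hmin⟩ := exists_minimal_surv hδ h
  have hBK : IsCompact B := hBc.isCompact
  by_contra hcon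
  push Not at hcon
  let W : Type _ := {w : List X // IsWalk δ B w}
  have hsing : ∀ b ∈ B, IsWalk δ B [b] := fun b hb => ⟨by simp, by simp, by simpa using hb⟩
  obtain ⟨b₀, hb₀⟩ := hBconn.nonempty
  have : Nonempty W := ⟨⟨[b₀], hsing b₀ hb₀⟩⟩
  have hdir : Directed (· ≥ ·) (fun v : W => 𝓟 {w : W | v.1 <:+: w.1}) := by
    intro v w
    obtain ⟨u, hu, h1, h2⟩ := walk_directed hδ hBconn v.2 w.2
    exact ⟨⟨u, hu⟩, principal_mono.mpr fun z hz => h1.trans hz,
      principal_mono.mpr fun z hz => h2.trans hz⟩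
  have hNB : NeBot (⨅ v : W, 𝓟 {w : W | v.1 <:+: w.1}) := by
    refine iInf_neBot_of_directed' hdir fun v => ?_
    rw [principal_neBot_iff]
    exact ⟨v, List.infix_rfl⟩
  let U : Ultrafilter W := Ultrafilter.of (⨅ v : W, 𝓟 {w : W | v.1 <:+: w.1})
  have hU : ∀ v : W, ∀ᶠ w in (U : Filter W), v.1 <:+: w.1 := by
    intro v
    have h3 : (U : Filter W) ≤ 𝓟 {w : W | v.1 <:+: w.1} :=
      (Ultrafilter.of_le _).trans (iInf_le _ v)
    exact h3 (mem_principal_self _)
  have hUb : ∀ b ∈ B, ∀ᶠ w in (U : Filter W), b ∈ w.1 := by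
    intro b hb
    filter_upwards [hU ⟨[b], hsing b hb⟩] with w hw
    exact hw.subset (by simp)
  -- eventually dense
  have hdense : ∀ᶠ w in (U : Filter W), ∀ b ∈ B, ∃ a ∈ w.1, dist b a < ρ := by
    obtain ⟨F, hFB, hFfin, hF⟩ := finite_cover_balls_of_compact hBK hρ
    have h4 : ∀ᶠ w in (U : Filter W), ∀ f ∈ F, f ∈ w.1 :=
      (Filter.eventually_all_finite hFfin).mpr fun f hf => hUb f (hFB hf)
    filter_upwards [h4] with w hw b hb
    have h5 := hF hb
    simp only [mem_iUnion, Metric.mem_ball, exists_prop] at h5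
    obtain ⟨f, hf, hd⟩ := h5
    exact ⟨f, hw f hf, hd⟩
  have hev : ∀ w : W, ∃ C, Evader e B w.1 C := fun w => hBs w.1 w.2
  choose C hC using hev
  have hbad : ∀ᶠ w in (U : Filter W), ∃ b ∈ B, ∀ c ∈ C w, ρ ≤ dist b c.1 := by
    filter_upwards [hdense] with w hw
    obtain ⟨b, hb, hb'⟩ := hcon B w.1 (C w) w.2 (hC w)
    exact ⟨b, hb, hb' (hw b hb)⟩
  -- the limit
  set R : Set X := ulim U (fun w => Prod.fst '' C w) with hR
  have hRB : R ⊆ B := ulim_subset_of_closed hBc (Eventually.of_forall fun w => (hC w).fst_subset)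
  have hRc : IsClosed R := isClosed_ulim _ _
  have hRconn : IsConnected R := by
    refine isConnected_ulim hBK (Eventually.of_forall fun w => (hC w).fst_subset)
      (Eventually.of_forall fun w => (hC w).1.2.1.nonempty.image _) ?_
    intro η hη
    exact Eventually.of_forall fun w => chainConn_of_isPreconnected
      ((hC w).1.2.1.isPreconnected.image _ continuous_fst.continuousOn) hη
  have hRne : R ≠ B := by
    intro hRe
    let b : W → X := fun w => if h : ∃ b ∈ B, ∀ c ∈ C w, ρ ≤ dist b c.1 then h.choose else b₀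
    have hb : ∀ᶠ w in (U : Filter W), b w ∈ B ∧ ∀ c ∈ C w, ρ ≤ dist (b w) c.1 := by
      filter_upwards [hbad] with w hw
      simp only [b, dif_pos hw]
      exact hw.choose_spec
    obtain ⟨p, hpB, hp, -⟩ := lim_mem_ulim (A := fun _ => B) hBK (hb.mono fun w hw => hw.1)
      (hb.mono fun w hw => hw.1)
    have hpR : p ∈ R := by rw [hRe]; exact hpB
    have h6 := hpR (ρ / 2) (by positivity)
    have h7 : ∀ᶠ w in (U : Filter W), dist (b w) p < ρ / 2 :=
      hp.eventually (Metric.ball_mem_nhds p (by positivity))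
    obtain ⟨w, ⟨a, ⟨c, hc, rfl⟩, hd⟩, h8, h9⟩ := (h6.and (h7.and hb)).exists
    have h10 := h9.2 c hc
    have h11 := dist_triangle (b w) p c.1
    linarith
  have hnS : ¬ Surv e δ R := fun hS => hRne (hmin R hRc hRconn hS hRB)
  unfold Surv at hnS
  push Not at hnS
  obtain ⟨v, hv, hvno⟩ := hnS
  have hD : ∀ w : W, v <:+: w.1 → ∃ D, Evader e (Prod.fst '' C w) v D := fun w hw =>
    evader_infix hv.1 hw (hC w)
  let D : W → Set (X × ℝ) := fun w => if hw : v <:+: w.1 then (hD w hw).choose else ∅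
  have hDe : ∀ᶠ w in (U : Filter W), Evader e (Prod.fst '' C w) v (D w) := by
    filter_upwards [hU ⟨v, hv.mono hRB⟩] with w hw
    simp only [D, dif_pos hw]
    exact (hD w hw).choose_spec
  refine hvno (ulim U D) ((evader_ulim hv.1 hDe).mono ?_)
  exact ulim_mono (hDe.mono fun w hw => hw.fst_subset)

end Pool.Agent.MP_a56558_gt
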